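import Mathlib

/-!
ST6 row V4. The Galois group of a cyclotomic extension of K acts on a measure on roots of unity.

SETTING. Θ finite set of roots of unity, weights η θ in the subfield K of ℂ of degree ≤ m over ℚ.
CLAIM. There are e > 0, a subgroup H of (ZMod e)ˣ with φ(e) ≤ m |H|, and exponents t θ with
θ = exp(2πi t θ/e) such that for every c ∈ H and every j for which ∑ η θ^j is rational,
∑ η θ · θ^(j c) = ∑ η θ · θ^j.

PROOF. e = lcm (product) of the orders of the θ's; ζ = exp(2πi/e), θ = ζ^(t θ). L = K(ζ) ⊆ ℂ, a cyclotomic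
(Galois) extension of K: `IsCyclotomicExtension {e} K L`, [L:K][K:ℚ] = [L:ℚ] ≥ [ℚ(ζ):ℚ] = φ(e). σ ∈ Gal(L/K) has σ ζ = ζ^(c σ),
σ ↦ c σ ∈ (ZMod e)ˣ is an injective homomorphism (`IsPrimitiveRoot.autToPow`, `autToPow_injective`); H := its range, |H| = [L:K]
≥ φ(e)/m. For c = c σ and j with q = ∑ η θ^j ∈ ℚ: apply σ (fixes η θ ∈ K and q): ∑ η θ σ(θ)^j = q, σ(θ) = θ^c
(c.val as exponent: θ^(c.val)).
-/

namespace Pool.Agent.ST5

open Complex in
theorem galois_average (Θ : Finset ℂ) (η : ℂ → ℝ) (K : IntermediateField ℚ ℂ)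
    [FiniteDimensional ℚ K] (m : ℕ) (hm : Module.finrank ℚ K ≤ m)
    (hηK : ∀ θ ∈ Θ, (η θ : ℂ) ∈ K) (hΘ : ∀ θ ∈ Θ, ∃ n : ℕ, 0 < n ∧ θ ^ n = 1) :
    ∃ (e : ℕ) (_ : NeZero e) (H : Subgroup (ZMod e)ˣ) (_ : Fintype H) (t : ℂ → ℕ),
      Nat.totient e ≤ m * Fintype.card H ∧
      (∀ θ ∈ Θ, θ = exp (2 * Real.pi * I * (t θ) / e)) ∧
      ∀ c ∈ H, ∀ (j : ℕ) (q : ℚ), ∑ θ ∈ Θ, (η θ : ℂ) * θ ^ j = q →
        ∑ θ ∈ Θ, (η θ : ℂ) * θ ^ (j * ((c : ZMod e).val)) = q := by
  classical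
  choose! n hn hn1 using hΘ
  set e : ℕ := ∏ θ ∈ Θ, n θ with he
  have he0 : e ≠ 0 := Finset.prod_ne_zero_iff.2 fun θ hθ => (hn θ hθ).ne'
  have : NeZero e := ⟨he0⟩
  set ζ : ℂ := exp (2 * Real.pi * I / e) with hζd
  have hζ : IsPrimitiveRoot ζ e := isPrimitiveRoot_exp e he0
  have hpow : ∀ θ ∈ Θ, ∃ k : ℕ, ζ ^ k = θ := by
    intro θ hθ
    have h1 : θ ^ e = 1 := by
      obtain ⟨k, hk⟩ := Finset.dvd_prod_of_mem n hθ
      rw [he, hk, pow_mul, hn1 θ hθ, one_pow]
    obtain ⟨k, -, hk⟩ := hζ.eq_pow_of_pow_eq_one h1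
    exact ⟨k, hk⟩
  choose! t ht using hpow
  let L : IntermediateField K ℂ := IntermediateField.adjoin K {ζ}
  have hint : IsIntegral K ζ := (hζ.isIntegral (Nat.pos_of_ne_zero he0)).tower_top
  have hcyc : IsCyclotomicExtension {e} K L := by
    change IsCyclotomicExtension {e} K (IntermediateField.adjoin K {ζ}).toSubalgebra
    rw [IntermediateField.adjoin_simple_toSubalgebra_of_isAlgebraic hint.isAlgebraic]
    exact hζ.adjoin_isCyclotomicExtension K
  have hζL : ζ ∈ L := IntermediateField.mem_adjoin_simple_self K ζ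
  let z : L := ⟨ζ, hζL⟩
  have hz : IsPrimitiveRoot z e := by
    rw [← IsPrimitiveRoot.coe_submonoidClass_iff]
    exact hζ
  have hfd : FiniteDimensional K L := IsCyclotomicExtension.finiteDimensional {e} K L
  have hgal : IsGalois K L := IsCyclotomicExtension.isGalois {e} K L
  let φ : (L ≃ₐ[K] L) →* (ZMod e)ˣ := hz.autToPow K
  have hφ : Function.Injective φ := hz.autToPow_injective K
  have hcard : Nat.card φ.range = Module.finrank K L := by
    rw [← IsGalois.card_aut_eq_finrank K L]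
    exact (Nat.card_congr (MonoidHom.ofInjective hφ).toEquiv).symm
  have : Fintype φ.range := Fintype.ofFinite _
  refine ⟨e, inferInstance, φ.range, inferInstance, t, ?_, ?_, ?_⟩
  · rw [← Nat.card_eq_fintype_card, hcard]
    have h1 : Nat.totient e = (minpoly ℚ z).natDegree := by
      rw [← Polynomial.cyclotomic_eq_minpoly_rat hz (Nat.pos_of_ne_zero he0),
        Polynomial.natDegree_cyclotomic]
    have : FiniteDimensional ℚ L := FiniteDimensional.trans ℚ K L
    have h2 : (minpoly ℚ z).natDegree ≤ Module.finrank ℚ L := minpoly.natDegree_le z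
    have h3 : Module.finrank ℚ K * Module.finrank K L = Module.finrank ℚ L :=
      Module.finrank_mul_finrank ℚ K L
    rw [h1]
    refine h2.trans ?_
    rw [← h3]
    exact Nat.mul_le_mul_right _ hm
  · intro θ hθ
    conv_lhs => rw [← ht θ hθ, hζd, ← Complex.exp_nat_mul]
    congr 1
    ring
  · intro c hc j q hq
    obtain ⟨σ, rfl⟩ := hc
    have hσ : z ^ ((φ σ : (ZMod e)ˣ) : ZMod e).val = σ z := hz.autToPow_spec K σ
    set a : ℕ := ((φ σ : (ZMod e)ˣ) : ZMod e).val with ha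
    let κ : ℂ → K := fun θ => if h : (η θ : ℂ) ∈ K then ⟨(η θ : ℂ), h⟩ else 0
    have hκ : ∀ θ ∈ Θ, ((κ θ : K) : ℂ) = η θ := by
      intro θ hθ
      simp only [κ, dif_pos (hηK θ hθ)]
    have h1 : ∑ θ ∈ Θ, algebraMap K L (κ θ) * z ^ (t θ * j) = algebraMap ℚ L q := by
      apply (algebraMap L ℂ).injective
      rw [map_sum]
      have h2 : algebraMap L ℂ (algebraMap ℚ L q) = (q : ℂ) := by
        simp
      rw [h2, ← hq]
      refine Finset.sum_congr rfl fun θ hθ => ?_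
      rw [map_mul, map_pow]
      have h3 : algebraMap L ℂ (algebraMap K L (κ θ)) = ((κ θ : K) : ℂ) := rfl
      have h4 : algebraMap L ℂ z = ζ := rfl
      rw [h3, h4, hκ θ hθ, pow_mul, ht θ hθ]
    have h5 := congrArg σ h1
    rw [map_sum] at h5
    have h6 : σ (algebraMap ℚ L q) = algebraMap ℚ L q := by simp
    rw [h6] at h5
    have h7 := congrArg (algebraMap L ℂ) h5
    rw [map_sum] at h7
    have h2 : algebraMap L ℂ (algebraMap ℚ L q) = (q : ℂ) := by
      simp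
    rw [h2] at h7
    rw [← h7]
    refine Finset.sum_congr rfl fun θ hθ => ?_
    rw [map_mul, map_pow, AlgEquiv.commutes, ← hσ, map_mul, map_pow, map_pow]
    have h3 : algebraMap L ℂ (algebraMap K L (κ θ)) = ((κ θ : K) : ℂ) := rfl
    have h4 : algebraMap L ℂ z = ζ := rfl
    rw [h3, h4, hκ θ hθ, ← pow_mul]
    have h8 : θ ^ (j * a) = ζ ^ (a * (t θ * j)) := by
      conv_lhs => rw [← ht θ hθ, ← pow_mul]
      congr 1
      ring
    rw [h8]

end Pool.Agent.ST5
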