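import Mathlib

/-!
ST6 row N5. Traces of the powers of an operator of finite order.

PROOF. T^j = 1, X^j - 1 is separable over ℂ, so V is the direct sum of the eigenspaces of T for the eigenvalues ζ^k,
ζ = exp (2πI/j), k < j; m k := finrank of the eigenspace; T^a acts on it by ζ^(a k).
Explicitly: the idempotents E_k = (1/j) ∑_{b<j} ζ^(-kb) T^b satisfy ∑ E_k = 1, E_k E_l = δ E_k, T E_k = ζ^k E_k; trace (E_k) = rank ∈ ℕ
(`LinearMap.IsProj.trace`), trace (T^a) = ∑_k trace (T^a E_k) = ∑_k ζ^(ak) trace (E_k).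
-/

namespace Pool.Agent.ST5

open Complex in
theorem N5_aux {V : Type*} [AddCommGroup V] [Module ℂ V] [FiniteDimensional ℂ V]
    (T : V →ₗ[ℂ] V) (j : ℕ) (hj : 0 < j) (hT : T ^ j = 1) (ζ : ℂ) (hζ : IsPrimitiveRoot ζ j) :
    ∃ m : Fin j → ℕ, ∀ a : ℕ, LinearMap.trace ℂ V (T ^ a) =
      ∑ k : Fin j, (m k : ℂ) * ζ ^ ((k : ℕ) * a) := by
  have hj0 : (j : ℂ) ≠ 0 := by exact_mod_cast hj.ne'
  have hζ0 : ζ ≠ 0 := hζ.ne_zero hj.ne'
  let E : ℕ → (V →ₗ[ℂ] V) := fun k =>
    (j : ℂ)⁻¹ • ∑ b ∈ Finset.range j, (ζ ^ (k * b))⁻¹ • T ^ b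
  have hE : ∀ k, E k = (j : ℂ)⁻¹ • ∑ b ∈ Finset.range j, (ζ ^ (k * b))⁻¹ • T ^ b := fun _ => rfl
  have h1 : ∀ k, T * E k = ζ ^ k • E k := by
    intro k
    have e1 : T * ∑ b ∈ Finset.range j, (ζ ^ (k * b))⁻¹ • T ^ b =
        ζ ^ k • ∑ b ∈ Finset.range j, (ζ ^ (k * (b + 1)))⁻¹ • T ^ (b + 1) := by
      rw [Finset.mul_sum, Finset.smul_sum]
      refine Finset.sum_congr rfl fun b _ => ?_
      rw [mul_smul_comm, ← pow_succ', smul_smul]
      congr 1
      rw [mul_add, mul_one, pow_add, mul_inv]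
      field_simp
    have e2 : ∑ b ∈ Finset.range j, (ζ ^ (k * (b + 1)))⁻¹ • T ^ (b + 1) =
        ∑ b ∈ Finset.range j, (ζ ^ (k * b))⁻¹ • T ^ b := by
      have e3 := Finset.sum_range_succ (fun b => (ζ ^ (k * b))⁻¹ • T ^ b) j
      have e4 := Finset.sum_range_succ' (fun b => (ζ ^ (k * b))⁻¹ • T ^ b) j
      rw [e4] at e3
      have e5 : (ζ ^ (k * j))⁻¹ • T ^ j = (ζ ^ (k * 0))⁻¹ • T ^ 0 := by
        rw [hT, mul_zero, pow_zero, pow_zero, mul_comm, pow_mul, hζ.pow_eq_one, one_pow]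
      rw [e5] at e3
      exact add_right_cancel e3
    rw [hE, mul_smul_comm, e1, e2, smul_comm]
  have h2 : ∀ k a, T ^ a * E k = ζ ^ (k * a) • E k := by
    intro k a
    induction a with
    | zero => rw [mul_zero, pow_zero, pow_zero, one_mul, one_smul]
    | succ a ih => rw [pow_succ', mul_assoc, ih, mul_smul_comm, h1, smul_smul, mul_add, mul_one,
        pow_add]
  have h3 : ∀ k, E k * E k = E k := by
    intro k
    have e1 : E k * E k = (j : ℂ)⁻¹ • ∑ b ∈ Finset.range j, (ζ ^ (k * b))⁻¹ • (T ^ b * E k) := by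
      conv_lhs => rw [hE k]
      rw [smul_mul_assoc, Finset.sum_mul]
      exact congrArg _ (Finset.sum_congr rfl fun b _ => smul_mul_assoc _ _ _)
    rw [e1]
    have e2 : ∀ b ∈ Finset.range j, (ζ ^ (k * b))⁻¹ • (T ^ b * E k) = E k := by
      intro b _
      rw [h2, smul_smul, inv_mul_cancel₀ (pow_ne_zero _ hζ0), one_smul]
    rw [Finset.sum_congr rfl e2, Finset.sum_const, Finset.card_range, ← Nat.cast_smul_eq_nsmul ℂ,
      smul_smul, inv_mul_cancel₀ hj0, one_smul]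
  have h4 : ∑ k ∈ Finset.range j, E k = 1 := by
    have e1 : ∑ k ∈ Finset.range j, E k =
        (j : ℂ)⁻¹ • ∑ b ∈ Finset.range j, (∑ k ∈ Finset.range j, (ζ ^ (k * b))⁻¹) • T ^ b := by
      rw [← Finset.smul_sum, Finset.sum_comm]
      refine congrArg _ (Finset.sum_congr rfl fun b _ => (Finset.sum_smul).symm)
    have e2 : ∀ b ∈ Finset.range j, (∑ k ∈ Finset.range j, (ζ ^ (k * b))⁻¹) • T ^ b =
        if b = 0 then (j : ℂ) • (1 : V →ₗ[ℂ] V) else 0 := by
      intro b hb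
      rw [Finset.mem_range] at hb
      by_cases hb0 : b = 0
      · rw [if_pos hb0, hb0, pow_zero]
        congr 1
        simp
      · rw [if_neg hb0]
        have e3 : ∑ k ∈ Finset.range j, (ζ ^ (k * b))⁻¹ = 0 := by
          have e4 : ∀ k ∈ Finset.range j, (ζ ^ (k * b))⁻¹ = ((ζ ^ b)⁻¹) ^ k := by
            intro k _
            rw [inv_pow, ← pow_mul, mul_comm]
          rw [Finset.sum_congr rfl e4]
          have e5 : (ζ ^ b)⁻¹ ≠ 1 := by
            intro e6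
            have e7 : ζ ^ b = 1 := inv_eq_one.mp e6
            have e8 := hζ.dvd_of_pow_eq_one b e7
            exact absurd (Nat.le_of_dvd (Nat.pos_of_ne_zero hb0) e8) (by omega)
          have e6 := geom_sum_mul ((ζ ^ b)⁻¹) j
          rw [inv_pow, ← pow_mul, mul_comm b j, pow_mul, hζ.pow_eq_one, one_pow, inv_one,
            sub_self] at e6
          exact (mul_eq_zero.mp e6).resolve_right (sub_ne_zero.mpr e5)
        rw [e3, zero_smul]
    rw [e1, Finset.sum_congr rfl e2, Finset.sum_ite_eq' (Finset.range j) 0,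
      if_pos (Finset.mem_range.mpr hj), smul_smul, inv_mul_cancel₀ hj0, one_smul]
  refine ⟨fun k => Module.finrank ℂ (LinearMap.range (E k)), fun a => ?_⟩
  have h5 : T ^ a = ∑ k ∈ Finset.range j, ζ ^ (k * a) • E k := by
    calc T ^ a = T ^ a * ∑ k ∈ Finset.range j, E k := by rw [h4, mul_one]
      _ = _ := by
        rw [Finset.mul_sum]
        exact Finset.sum_congr rfl fun k _ => h2 k a
  have h6 : ∀ k, LinearMap.trace ℂ V (E k) = (Module.finrank ℂ (LinearMap.range (E k)) : ℂ) := by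
    intro k
    have e1 : LinearMap.IsProj (LinearMap.range (E k)) (E k) := by
      refine ⟨fun x => LinearMap.mem_range_self _ x, ?_⟩
      rintro _ ⟨y, rfl⟩
      exact DFunLike.congr_fun (h3 k) y
    exact e1.trace
  rw [h5, map_sum, ← Fin.sum_univ_eq_sum_range (fun k => LinearMap.trace ℂ V (ζ ^ (k * a) • E k)) j]
  refine Finset.sum_congr rfl fun k _ => ?_
  rw [map_smul, h6, smul_eq_mul, mul_comm]

open Complex in
theorem trace_of_finite_order {V : Type*} [AddCommGroup V] [Module ℂ V] [FiniteDimensional ℂ V]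
    (T : V →ₗ[ℂ] V) (j : ℕ) (hj : 0 < j) (hT : T ^ j = 1) :
    ∃ m : Fin j → ℕ, ∀ a : ℕ, LinearMap.trace ℂ V (T ^ a) =
      ∑ k : Fin j, (m k : ℂ) * exp (2 * Real.pi * I * ((k : ℕ) * a) / j) := by
  obtain ⟨m, hm⟩ := N5_aux T j hj hT _ (Complex.isPrimitiveRoot_exp j hj.ne')
  refine ⟨m, fun a => ?_⟩
  rw [hm a]
  refine Finset.sum_congr rfl fun k _ => ?_
  rw [← Complex.exp_nat_mul]
  congr 2
  push_cast
  ring

end Pool.Agent.ST5
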