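import Mathlib

/-!
ST6 row N2. Conjugates of a sum of j-th roots of unity that lies in the f-th cyclotomic field.

SETTING. ζ f = exp (2 π I / f); all prime factors of j divide f; x = ∑_k m k · ζ_j^k lies in ℚ(ζ_f).
CLAIM. Every ring homomorphism φ : ℚ(ζ_f) → ℂ maps x to ∑_k m k ζ_j^(a k) for some 1 ≤ a ≤ f (so the bound B applies);
x is integral over ℤ.

PROOF. φ(ζ_f) is a primitive f-th root of unity, so φ(ζ_f) = ζ_f^a with 1 ≤ a ≤ f, (a, f) = 1
(`IsPrimitiveRoot`: φ injective; `IsPrimitiveRoot.isPrimitiveRoot_iff'`/`eq_pow_of_pow_eq_one`; for f = 1 take a = 1). Then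
(a, j) = 1 because every prime factor of j divides f, so (a, M) = 1 for M = f j. Let
E_M = ℚ(ζ_M) ⊇ ℚ(ζ_f), ζ_M^j = ζ_f, ζ_M^f = ζ_j. There is a ℚ-automorphism (or homomorphism to ℂ) σ of E_M with
σ ζ_M = ζ_M^a (cyclotomic polynomials are irreducible over ℚ: `IsCyclotomicExtension.autEquivPow`,
`IsPrimitiveRoot.embeddingsEquivPrimitiveRoots`, `Polynomial.cyclotomic.irreducible_rat`; or: minpoly of ζ_M is
cyclotomic M ℚ (`Polynomial.cyclotomic_eq_minpoly_rat`), ζ_M^a is another root, `IntermediateField.adjoin`/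
`AdjoinRoot` lift `IntermediateField.algHomAdjoinIntegralEquiv`). σ and φ agree on ζ_f (σ ζ_f = σ (ζ_M^j) = ζ_M^(a j) = ζ_f^a),
hence on ℚ(ζ_f), in particular φ x = σ x = ∑ m k σ(ζ_j)^k = ∑ m k ζ_j^(a k).
-/

namespace Pool.Agent.ST5

open Complex in
theorem N2_exponent (f : ℕ) (hf : 0 < f)
    (φ : (IntermediateField.adjoin ℚ {exp (2 * Real.pi * I / f)}) →ₐ[ℚ] ℂ) :
    ∃ a : ℕ, 1 ≤ a ∧ a ≤ f ∧ a.Coprime f ∧
      φ (IntermediateField.AdjoinSimple.gen ℚ (exp (2 * Real.pi * I / f))) =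
        exp (2 * Real.pi * I / f) ^ a := by
  have hζ : IsPrimitiveRoot (exp (2 * Real.pi * I / f)) f := isPrimitiveRoot_exp f hf.ne'
  have hg : IsPrimitiveRoot (IntermediateField.AdjoinSimple.gen ℚ (exp (2 * Real.pi * I / f))) f := by
    apply IsPrimitiveRoot.of_map_of_injective (f := algebraMap
      (IntermediateField.adjoin ℚ {exp (2 * Real.pi * I / f)}) ℂ) _
      (algebraMap (IntermediateField.adjoin ℚ {exp (2 * Real.pi * I / f)}) ℂ).injective
    rw [IntermediateField.AdjoinSimple.algebraMap_gen]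
    exact hζ
  have hφ : IsPrimitiveRoot (φ (IntermediateField.AdjoinSimple.gen ℚ
      (exp (2 * Real.pi * I / f)))) f := hg.map_of_injective φ.toRingHom.injective
  have : NeZero f := ⟨hf.ne'⟩
  obtain ⟨i, hi, hi2⟩ := hζ.eq_pow_of_pow_eq_one hφ.pow_eq_one
  have key : ∀ a : ℕ, exp (2 * Real.pi * I / f) ^ a = φ (IntermediateField.AdjoinSimple.gen ℚ
      (exp (2 * Real.pi * I / f))) → a.Coprime f := by
    intro a ha
    rw [← ha] at hφ
    exact (hζ.pow_iff_coprime hf a).1 hφ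
  by_cases h0 : i = 0
  · have h1 : exp (2 * Real.pi * I / f) ^ f = φ (IntermediateField.AdjoinSimple.gen ℚ
      (exp (2 * Real.pi * I / f))) := by
      rw [hζ.pow_eq_one, ← hi2, h0, pow_zero]
    exact ⟨f, hf, le_rfl, key f h1, h1.symm⟩
  · exact ⟨i, Nat.one_le_iff_ne_zero.2 h0, hi.le, key i hi2, hi2.symm⟩

open Complex in
theorem N2_sigma (M a : ℕ) (hM : 0 < M) (ha : a.Coprime M) :
    ∃ σ : (IntermediateField.adjoin ℚ {exp (2 * Real.pi * I / M)}) →ₐ[ℚ] ℂ,
      σ (IntermediateField.AdjoinSimple.gen ℚ (exp (2 * Real.pi * I / M))) =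
        exp (2 * Real.pi * I / M) ^ a := by
  have hζ : IsPrimitiveRoot (exp (2 * Real.pi * I / M)) M := isPrimitiveRoot_exp M hM.ne'
  have hζa : IsPrimitiveRoot (exp (2 * Real.pi * I / M) ^ a) M := (hζ.pow_iff_coprime hM a).2 ha
  have hint : IsIntegral ℚ (exp (2 * Real.pi * I / M)) := (hζ.isIntegral hM).tower_top
  have hmem : exp (2 * Real.pi * I / M) ^ a ∈
      (minpoly ℚ (exp (2 * Real.pi * I / M))).aroots ℂ := by
    rw [Polynomial.mem_aroots]
    refine ⟨minpoly.ne_zero hint, ?_⟩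
    rw [← Polynomial.cyclotomic_eq_minpoly_rat hζ hM,
      Polynomial.cyclotomic_eq_minpoly_rat hζa hM]
    exact minpoly.aeval _ _
  refine ⟨(IntermediateField.algHomAdjoinIntegralEquiv ℚ hint).symm ⟨_, hmem⟩, ?_⟩
  exact IntermediateField.algHomAdjoinIntegralEquiv_symm_apply_gen ℚ hint ⟨_, hmem⟩

open Complex in
theorem N2_exp_pow (M n : ℕ) (z : ℂ) (h : (n : ℂ) * (2 * Real.pi * I / M) = z) :
    exp (2 * Real.pi * I / M) ^ n = exp z := by
  rw [← h, exp_nat_mul]

open Complex in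
theorem conj_bound (f j : ℕ) (hf : 0 < f) (hj : 0 < j) (hfj : ∀ p : ℕ, p.Prime → p ∣ j → p ∣ f)
    (m : Fin j → ℕ) (x : ℂ)
    (hx : x = ∑ k : Fin j, (m k : ℂ) * exp (2 * Real.pi * I * (k : ℕ) / j))
    (hxE : x ∈ IntermediateField.adjoin ℚ {exp (2 * Real.pi * I / f)}) (B : ℝ)
    (hB : ∀ a : ℕ, 1 ≤ a → a ≤ f →
      ‖∑ k : Fin j, (m k : ℂ) * exp (2 * Real.pi * I * ((k : ℕ) * a) / j)‖ ≤ B) :
    IsIntegral ℤ x ∧
      ∀ φ : (IntermediateField.adjoin ℚ {exp (2 * Real.pi * I / f)}) →+* ℂ, ‖φ ⟨x, hxE⟩‖ ≤ B := by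
  have hfC : (f : ℂ) ≠ 0 := Nat.cast_ne_zero.2 hf.ne'
  have hjC : (j : ℂ) ≠ 0 := Nat.cast_ne_zero.2 hj.ne'
  constructor
  · rw [hx]
    apply IsIntegral.sum
    intro k _
    apply IsIntegral.mul
    · exact isIntegral_algebraMap (R := ℤ) (x := (m k : ℤ))
    · refine ⟨Polynomial.X ^ j - 1, Polynomial.monic_X_pow_sub_C (1 : ℤ) hj.ne', ?_⟩
      rw [Polynomial.eval₂_sub, Polynomial.eval₂_pow, Polynomial.eval₂_X, Polynomial.eval₂_one,
        ← exp_nat_mul]
      have h1 : (j : ℂ) * (2 * Real.pi * I * (k : ℕ) / j) = ((k : ℕ) : ℂ) * (2 * Real.pi * I) := by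
        field_simp
      rw [h1, exp_nat_mul_two_pi_mul_I, sub_self]
  · intro φ0
    let φ : (IntermediateField.adjoin ℚ {exp (2 * Real.pi * I / f)}) →ₐ[ℚ] ℂ := φ0.toRatAlgHom
    obtain ⟨a, ha1, haf, hcop, hφ⟩ := N2_exponent f hf φ
    have hcj : a.Coprime j := by
      by_contra hn
      obtain ⟨p, hp, hpa, hpj⟩ := Nat.Prime.not_coprime_iff_dvd.1 hn
      exact Nat.Prime.not_coprime_iff_dvd.2 ⟨p, hp, hpa, hfj p hp hpj⟩ hcop
    have hM : 0 < f * j := Nat.mul_pos hf hj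
    obtain ⟨σ, hσ⟩ := N2_sigma (f * j) a hM (Nat.Coprime.mul_right hcop hcj)
    have hMC : ((f * j : ℕ) : ℂ) = (f : ℂ) * j := by push_cast; ring
    -- the inclusion
    have e1 : exp (2 * Real.pi * I / ((f * j : ℕ) : ℂ)) ^ j = exp (2 * Real.pi * I / f) := by
      apply N2_exp_pow
      rw [hMC]
      field_simp
    have hle : IntermediateField.adjoin ℚ {exp (2 * Real.pi * I / f)} ≤
        IntermediateField.adjoin ℚ {exp (2 * Real.pi * I / ((f * j : ℕ) : ℂ))} := by
      rw [IntermediateField.adjoin_simple_le_iff, ← e1]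
      exact pow_mem (IntermediateField.mem_adjoin_simple_self ℚ _) j
    have hagree : φ = σ.comp (IntermediateField.inclusion hle) := by
      apply IntermediateField.adjoin_algHom_ext
      intro y hy
      rw [Set.mem_singleton_iff] at hy
      subst hy
      have h1 : IntermediateField.inclusion hle
          ⟨exp (2 * Real.pi * I / f), IntermediateField.subset_adjoin _ _ (Set.mem_singleton _)⟩ =
          IntermediateField.AdjoinSimple.gen ℚ (exp (2 * Real.pi * I / ((f * j : ℕ) : ℂ))) ^ j := by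
        apply Subtype.ext
        exact e1.symm
      have h2 : σ (IntermediateField.AdjoinSimple.gen ℚ
          (exp (2 * Real.pi * I / ((f * j : ℕ) : ℂ))) ^ j) =
          (exp (2 * Real.pi * I / ((f * j : ℕ) : ℂ)) ^ a) ^ j := by
        rw [map_pow, hσ]
      have h3 : exp (2 * Real.pi * I / f) ^ a =
          (exp (2 * Real.pi * I / ((f * j : ℕ) : ℂ)) ^ a) ^ j := by
        rw [← e1, ← pow_mul, ← pow_mul, mul_comm j a]
      exact hφ.trans (h3.trans ((congrArg σ h1).trans h2).symm)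
    have hxM : x ∈ IntermediateField.adjoin ℚ {exp (2 * Real.pi * I / ((f * j : ℕ) : ℂ))} :=
      hle hxE
    have hxsum : (⟨x, hxM⟩ : IntermediateField.adjoin ℚ
        {exp (2 * Real.pi * I / ((f * j : ℕ) : ℂ))}) = ∑ k : Fin j, (m k : IntermediateField.adjoin ℚ
        {exp (2 * Real.pi * I / ((f * j : ℕ) : ℂ))}) *
          IntermediateField.AdjoinSimple.gen ℚ (exp (2 * Real.pi * I / ((f * j : ℕ) : ℂ))) ^
            (f * (k : ℕ)) := by
      apply (algebraMap (IntermediateField.adjoin ℚ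
        {exp (2 * Real.pi * I / ((f * j : ℕ) : ℂ))}) ℂ).injective
      rw [map_sum]
      change x = _
      rw [hx]
      apply Finset.sum_congr rfl
      intro k _
      rw [map_mul, map_pow, map_natCast, IntermediateField.AdjoinSimple.algebraMap_gen]
      congr 1
      symm
      apply N2_exp_pow
      rw [hMC]
      push_cast
      field_simp
    have hval : φ0 ⟨x, hxE⟩ = ∑ k : Fin j, (m k : ℂ) *
        exp (2 * Real.pi * I * ((k : ℕ) * a) / j) := by
      have h1 : φ0 ⟨x, hxE⟩ = φ ⟨x, hxE⟩ := rfl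
      have h2 : φ ⟨x, hxE⟩ = σ ⟨x, hxM⟩ := DFunLike.congr_fun hagree ⟨x, hxE⟩
      rw [h1, h2, hxsum, map_sum]
      apply Finset.sum_congr rfl
      intro k _
      rw [map_mul, map_pow, map_natCast, hσ, ← pow_mul]
      congr 1
      apply N2_exp_pow
      rw [hMC]
      push_cast
      field_simp
    rw [hval]
    exact hB a ha1 haf

end Pool.Agent.ST5
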