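import Mathlib

/-!
ST6 row N3. Finiteness of the algebraic integers of a cyclotomic field with bounded conjugates.

PROOF. E = ℚ(ζ_f) is a number field (ζ_f is integral over ℚ, `IntermediateField.adjoin.finiteDimensional`, char zero),
`NumberField.Embeddings.finite_of_norm_le` gives the finiteness of the set of x : E, integral, with all
‖φ x‖ ≤ B; take the image under the inclusion E → ℂ.
-/

namespace Pool.Agent.ST5

open Complex in
theorem finite_bounded (f : ℕ) (hf : 0 < f) (B : ℝ) :
    Set.Finite {x : ℂ | ∃ hx : x ∈ IntermediateField.adjoin ℚ {exp (2 * Real.pi * I / f)},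
      IsIntegral ℤ x ∧
      ∀ φ : (IntermediateField.adjoin ℚ {exp (2 * Real.pi * I / f)}) →+* ℂ, ‖φ ⟨x, hx⟩‖ ≤ B} := by
  set E := IntermediateField.adjoin ℚ {exp (2 * Real.pi * I / f)} with hE
  have hint : IsIntegral ℚ (exp (2 * Real.pi * I / f)) := by
    have hpow : (exp (2 * Real.pi * I / f)) ^ f = 1 := by
      rw [← Complex.exp_nat_mul]
      have hf' : (f : ℂ) ≠ 0 := by exact_mod_cast hf.ne'
      have : (f : ℂ) * (2 * Real.pi * I / f) = 2 * Real.pi * I := by field_simp
      rw [this, Complex.exp_two_pi_mul_I]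
    refine IsIntegral.of_pow hf ?_
    rw [hpow]
    exact isIntegral_one
  have hfd : FiniteDimensional ℚ E := IntermediateField.adjoin.finiteDimensional hint
  have : NumberField E := ⟨⟩
  have hfin := NumberField.Embeddings.finite_of_norm_le E ℂ B
  refine (hfin.image (fun x : E => (x : ℂ))).subset ?_
  rintro x ⟨hx, hxi, hxn⟩
  refine ⟨⟨x, hx⟩, ⟨?_, hxn⟩, rfl⟩
  have : IsIntegral ℤ (algebraMap E ℂ ⟨x, hx⟩) := hxi
  exact (isIntegral_algebraMap_iff (algebraMap E ℂ).injective).1 this

end Pool.Agent.ST5
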