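import Mathlib

/-!
ST6 row N4. Finitely many values along powers of f force roots of unity.

PROOF. n = Θ.card. The vectors v_k = (u (f^k i))_{1 ≤ i ≤ 2n}, u j = ∑ η θ^j, take finitely many values
(a finite set to the power 2n), so by the pigeonhole principle v_k = v_{k'} for some k < k'
(`Finite.exists_ne_map_eq_of_infinite`). Put A x = ∑_{θ : θ^(f^k) = x} η θ, A' x the same with k'. For
1 ≤ i ≤ 2n: ∑_x A x x^i = ∑_x A' x x^i over the union of S = Θ.image (· ^ f^k) and S' = Θ.image (· ^ f^k'), a set of at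
most 2n nonzero numbers; by Vandermonde (exponents 1..2n, x ≠ 0) A = A' there. η > 0 gives A x > 0 iff x ∈ S, so S = S'.
The map F x = x^(f^(k'-k)) maps S onto S' = S; S finite, so F is a permutation of S and some iterate F^M, M ≥ 1, is
the identity on S (`Function.IsPeriodicPt` for injective maps of finite sets; or Equiv.Perm has finite order):
x^(f^((k'-k) M)) = x, x ≠ 0, so x^(f^((k'-k)M) - 1) = 1 with positive exponent (f ≥ 2). With x = θ^(f^k):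
θ^(f^k (f^((k'-k)M) - 1)) = 1.
-/

namespace Pool.Agent.ST5

private lemma vdm (U : Finset ℂ) (B : ℂ → ℂ) (n : ℕ) (hn : U.card ≤ n) (h0 : ∀ x ∈ U, x ≠ 0)
    (h : ∀ i, 1 ≤ i → i ≤ n → ∑ x ∈ U, B x * x ^ i = 0) : ∀ x ∈ U, B x = 0 := by
  classical
  intro x hx
  let p : Polynomial ℂ := ∏ y ∈ U.erase x, (Polynomial.X - Polynomial.C y)
  have hdeg : p.natDegree + 1 ≤ n := by
    have h1 : p.natDegree = (U.erase x).card := by
      simp only [p]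
      rw [Polynomial.natDegree_prod_of_monic _ _ (fun y _ => Polynomial.monic_X_sub_C y)]
      simp
    rw [h1, Finset.card_erase_of_mem hx]
    have : 0 < U.card := Finset.card_pos.mpr ⟨x, hx⟩
    omega
  have h1 : ∑ y ∈ U, B y * (y * p.eval y) = 0 := by
    have h2 : ∀ y ∈ U, B y * (y * p.eval y) =
        ∑ i ∈ Finset.range (p.natDegree + 1), p.coeff i * (B y * y ^ (i + 1)) := by
      intro y _
      rw [Polynomial.eval_eq_sum_range, Finset.mul_sum, Finset.mul_sum]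
      apply Finset.sum_congr rfl
      intro i _
      ring
    rw [Finset.sum_congr rfl h2, Finset.sum_comm]
    apply Finset.sum_eq_zero
    intro i hi
    rw [← Finset.mul_sum, h (i + 1) (by omega) (by
      rw [Finset.mem_range] at hi
      omega), mul_zero]
  rw [Finset.sum_eq_single x] at h1
  · have h3 : p.eval x ≠ 0 := by
      simp only [p]
      rw [Polynomial.eval_prod, Finset.prod_ne_zero_iff]
      intro y hy
      rw [Polynomial.eval_sub, Polynomial.eval_X, Polynomial.eval_C, sub_ne_zero]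
      exact (Finset.ne_of_mem_erase hy).symm
    rcases mul_eq_zero.mp h1 with h4 | h4
    · exact h4
    · exact absurd h4 (mul_ne_zero (h0 x hx) h3)
  · intro y hy hyx
    have : p.eval y = 0 := by
      simp only [p]
      rw [Polynomial.eval_prod]
      apply Finset.prod_eq_zero (Finset.mem_erase.mpr ⟨hyx, hy⟩)
      simp
    rw [this, mul_zero, mul_zero]
  · intro hx'
    exact absurd hx hx'

private lemma sum_fib (Θ : Finset ℂ) (η : ℂ → ℝ) (U : Finset ℂ) (g : ℂ → ℂ)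
    (hg : ∀ θ ∈ Θ, g θ ∈ U) (i : ℕ) :
    ∑ x ∈ U, ((∑ θ ∈ Θ.filter (fun θ => g θ = x), η θ : ℝ) : ℂ) * x ^ i =
      ∑ θ ∈ Θ, (η θ : ℂ) * (g θ) ^ i := by
  classical
  rw [← Finset.sum_fiberwise_of_maps_to hg]
  apply Finset.sum_congr rfl
  intro x _
  rw [Complex.ofReal_sum, Finset.sum_mul]
  apply Finset.sum_congr rfl
  intro θ hθ
  rw [(Finset.mem_filter.mp hθ).2]

private lemma image_eq (Θ : Finset ℂ) (η : ℂ → ℝ) (hη : ∀ θ ∈ Θ, 0 < η θ) (g g' : ℂ → ℂ)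
    (h0 : ∀ θ ∈ Θ, g θ ≠ 0) (h0' : ∀ θ ∈ Θ, g' θ ≠ 0)
    (h : ∀ i, 1 ≤ i → i ≤ 2 * Θ.card →
      ∑ θ ∈ Θ, (η θ : ℂ) * (g θ) ^ i = ∑ θ ∈ Θ, (η θ : ℂ) * (g' θ) ^ i) :
    ∀ θ ∈ Θ, ∃ θ' ∈ Θ, g' θ' = g θ := by
  classical
  let U : Finset ℂ := Θ.image g ∪ Θ.image g'
  have hU : U.card ≤ 2 * Θ.card := by
    have h1 := Finset.card_union_le (Θ.image g) (Θ.image g')
    have h2 : (Θ.image g).card ≤ Θ.card := Finset.card_image_le
    have h3 : (Θ.image g').card ≤ Θ.card := Finset.card_image_le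
    change (Θ.image g ∪ Θ.image g').card ≤ _
    omega
  have hgU : ∀ θ ∈ Θ, g θ ∈ U := fun θ hθ =>
    Finset.mem_union_left _ (Finset.mem_image_of_mem _ hθ)
  have hgU' : ∀ θ ∈ Θ, g' θ ∈ U := fun θ hθ =>
    Finset.mem_union_right _ (Finset.mem_image_of_mem _ hθ)
  have hU0 : ∀ x ∈ U, x ≠ 0 := by
    intro x hx
    rcases Finset.mem_union.mp hx with h1 | h1
    · obtain ⟨θ, hθ, rfl⟩ := Finset.mem_image.mp h1
      exact h0 θ hθ
    · obtain ⟨θ, hθ, rfl⟩ := Finset.mem_image.mp h1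
      exact h0' θ hθ
  let A : ℂ → ℝ := fun x => ∑ θ ∈ Θ.filter (fun θ => g θ = x), η θ
  let A' : ℂ → ℝ := fun x => ∑ θ ∈ Θ.filter (fun θ => g' θ = x), η θ
  have hB := vdm U (fun x => (A x : ℂ) - (A' x : ℂ)) (2 * Θ.card) hU hU0 (by
    intro i h1 h2
    have e1 := sum_fib Θ η U g hgU i
    have e2 := sum_fib Θ η U g' hgU' i
    have e3 := h i h1 h2
    simp only [sub_mul]
    rw [Finset.sum_sub_distrib]
    change (∑ x ∈ U, ((∑ θ ∈ Θ.filter (fun θ => g θ = x), η θ : ℝ) : ℂ) * x ^ i) -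
      (∑ x ∈ U, ((∑ θ ∈ Θ.filter (fun θ => g' θ = x), η θ : ℝ) : ℂ) * x ^ i) = 0
    rw [e1, e2, e3, sub_self])
  intro θ hθ
  have h1 := hB (g θ) (hgU θ hθ)
  have h2 : A (g θ) = A' (g θ) := by
    have h3 : (A (g θ) : ℂ) = (A' (g θ) : ℂ) := sub_eq_zero.mp h1
    exact_mod_cast h3
  have h3 : 0 < A (g θ) := by
    apply Finset.sum_pos
    · intro θ' hθ'
      exact hη θ' (Finset.mem_filter.mp hθ').1
    · exact ⟨θ, Finset.mem_filter.mpr ⟨hθ, rfl⟩⟩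
  by_contra hcon
  push Not at hcon
  have h4 : A' (g θ) = 0 := by
    apply Finset.sum_eq_zero
    intro θ' hθ'
    obtain ⟨h5, h6⟩ := Finset.mem_filter.mp hθ'
    exact absurd h6 (hcon θ' h5)
  rw [h2, h4] at h3
  exact lt_irrefl _ h3

theorem roots_of_unity_of_finite (Θ : Finset ℂ) (η : ℂ → ℝ) (hη : ∀ θ ∈ Θ, 0 < η θ)
    (h0 : ∀ θ ∈ Θ, θ ≠ 0) (f : ℕ) (hf : 2 ≤ f)
    (hfin : Set.Finite {x : ℂ | ∃ k i : ℕ, 1 ≤ i ∧ i ≤ 2 * Θ.card ∧
      x = ∑ θ ∈ Θ, (η θ : ℂ) * θ ^ (f ^ k * i)}) :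
    ∀ θ ∈ Θ, ∃ n : ℕ, 0 < n ∧ θ ^ n = 1 := by
  classical
  set V : Set ℂ := {x : ℂ | ∃ k i : ℕ, 1 ≤ i ∧ i ≤ 2 * Θ.card ∧
      x = ∑ θ ∈ Θ, (η θ : ℂ) * θ ^ (f ^ k * i)} with hV
  have hVf : Finite V := hfin.to_subtype
  let v : ℕ → (Fin (2 * Θ.card) → V) := fun k i =>
    ⟨∑ θ ∈ Θ, (η θ : ℂ) * θ ^ (f ^ k * (i.val + 1)), k, i.val + 1, by omega, by omega, rfl⟩
  obtain ⟨k₁, k₂, hne, hv⟩ := Finite.exists_ne_map_eq_of_infinite v
  obtain ⟨k, d, hd, hkd⟩ : ∃ k d : ℕ, 0 < d ∧ v k = v (k + d) := by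
    rcases lt_or_gt_of_ne hne with h1 | h1
    · refine ⟨k₁, k₂ - k₁, by omega, ?_⟩
      rw [Nat.add_sub_cancel' h1.le]
      exact hv
    · refine ⟨k₂, k₁ - k₂, by omega, ?_⟩
      rw [Nat.add_sub_cancel' h1.le]
      exact hv.symm
  have hsum : ∀ i, 1 ≤ i → i ≤ 2 * Θ.card →
      ∑ θ ∈ Θ, (η θ : ℂ) * (θ ^ (f ^ k)) ^ i = ∑ θ ∈ Θ, (η θ : ℂ) * (θ ^ (f ^ (k + d))) ^ i := by
    intro i h1 h2
    have h3 := congrFun hkd ⟨i - 1, by omega⟩
    have h4 := congrArg Subtype.val h3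
    simp only [v, Nat.sub_add_cancel h1] at h4
    simp only [← pow_mul]
    exact h4
  have hz : ∀ (m : ℕ), ∀ θ ∈ Θ, θ ^ (f ^ m) ≠ 0 := fun m θ hθ => pow_ne_zero _ (h0 θ hθ)
  have hS1 := image_eq Θ η hη (fun θ => θ ^ (f ^ k)) (fun θ => θ ^ (f ^ (k + d)))
    (hz k) (hz (k + d)) hsum
  have hS2 := image_eq Θ η hη (fun θ => θ ^ (f ^ (k + d))) (fun θ => θ ^ (f ^ k))
    (hz (k + d)) (hz k) (fun i h1 h2 => (hsum i h1 h2).symm)
  let S : Finset ℂ := Θ.image (fun θ => θ ^ (f ^ k))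
  have hFS : ∀ x ∈ S, x ^ (f ^ d) ∈ S := by
    intro x hx
    obtain ⟨θ, hθ, rfl⟩ := Finset.mem_image.mp hx
    obtain ⟨θ', hθ', h1⟩ := hS2 θ hθ
    refine Finset.mem_image.mpr ⟨θ', hθ', ?_⟩
    change θ' ^ (f ^ k) = θ ^ (f ^ (k + d)) at h1
    rw [h1, ← pow_mul, pow_add]
  let F : S → S := fun x => ⟨x.1 ^ (f ^ d), hFS x.1 x.2⟩
  have hFs : Function.Surjective F := by
    rintro ⟨x, hx⟩
    obtain ⟨θ, hθ, h2⟩ := Finset.mem_image.mp hx
    obtain ⟨θ', hθ', h1⟩ := hS1 θ hθ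
    refine ⟨⟨θ' ^ (f ^ k), Finset.mem_image_of_mem _ hθ'⟩, ?_⟩
    apply Subtype.ext
    change θ' ^ (f ^ (k + d)) = θ ^ (f ^ k) at h1
    change θ ^ (f ^ k) = x at h2
    change (θ' ^ (f ^ k)) ^ (f ^ d) = x
    rw [← pow_mul, ← pow_add, h1, h2]
  have hFi : Function.Injective F := Finite.injective_iff_surjective.mpr hFs
  have hit : ∀ (M : ℕ) (x : S), ((F^[M]) x : ℂ) = (x : ℂ) ^ (f ^ (d * M)) := by
    intro M x
    induction M with
    | zero => simp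
    | succ M ih =>
      rw [Function.iterate_succ_apply']
      change ((F^[M] x : S) : ℂ) ^ (f ^ d) = _
      rw [ih, ← pow_mul, ← pow_add, Nat.mul_succ]
  intro θ hθ
  have hx : θ ^ (f ^ k) ∈ S := Finset.mem_image_of_mem _ hθ
  obtain ⟨M, hM, hper⟩ := hFi.mem_periodicPts ⟨θ ^ (f ^ k), hx⟩
  have h1 : (θ ^ (f ^ k)) ^ (f ^ (d * M)) = θ ^ (f ^ k) := by
    have h2 := congrArg Subtype.val (hper : F^[M] _ = _)
    rw [hit] at h2
    exact h2
  have hpos : 1 < f ^ (d * M) := Nat.one_lt_pow (Nat.mul_pos hd hM).ne' (by omega)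
  refine ⟨f ^ k * (f ^ (d * M) - 1), Nat.mul_pos (pow_pos (by omega) _) (by omega), ?_⟩
  rw [pow_mul]
  apply mul_right_cancel₀ (hz k θ hθ)
  rw [one_mul, ← pow_succ, Nat.sub_add_cancel hpos.le, h1]

end Pool.Agent.ST5
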