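import Pool.Agent.ST5.N.N1
import Pool.Agent.ST5.N.N2
import Pool.Agent.ST5.N.N3
import Pool.Agent.ST5.N.N4

/-!
ST6 row N6. Bounded torus-link traces force roots of unity (assembly of N1-N4).

PROOF. n = Θ.card; if n = 0 nothing to prove. f := (2 n)! (≥ 2). E = ℚ(ζ_f). For 1 ≤ j ≤ 2n, κ 1 j is a combination of
exp(2πI k/j) = ζ_f^(k f / j) (j ∣ f), so in E. By `power_sums_mem` all κ 1 j, j ≥ 1, are in E. For j all of whose prime
factors divide f, `conj_bound` with B = max of the bounds of κ a, 1 ≤ a ≤ f, and `finite_bounded` show that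
κ 1 j lies in a fixed finite set; j = f^k * i, 1 ≤ i ≤ 2n, qualifies (a prime dividing i ≤ 2n divides (2n)!).
`roots_of_unity_of_finite`.
-/

namespace Pool.Agent.ST5

open Complex in
theorem roots_of_unity_of_bounded (Θ : Finset ℂ) (η : ℂ → ℝ) (hη : ∀ θ ∈ Θ, 0 < η θ)
    (h0 : ∀ θ ∈ Θ, θ ≠ 0) (κ : ℕ → ℕ → ℂ)
    (hκ : ∀ j, 0 < j → ∃ m : Fin j → ℕ, ∀ a : ℕ, κ a j =
      ∑ k : Fin j, (m k : ℂ) * exp (2 * Real.pi * I * ((k : ℕ) * a) / j))
    (hB : ∀ a : ℕ, 0 < a → ∃ B : ℝ, ∀ j : ℕ, 0 < j → ‖κ a j‖ ≤ B)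
    (h1 : ∀ j, 0 < j → κ 1 j = ∑ θ ∈ Θ, (η θ : ℂ) * θ ^ j) :
    ∀ θ ∈ Θ, ∃ n : ℕ, 0 < n ∧ θ ^ n = 1 := by
  classical
  intro θ hθ
  have hn : 1 ≤ Θ.card := Finset.card_pos.mpr ⟨θ, hθ⟩
  obtain ⟨f, hf⟩ : ∃ f, f = (2 * Θ.card).factorial := ⟨_, rfl⟩
  have hf2 : 2 ≤ f := by
    have h2 : (2 : ℕ).factorial ≤ (2 * Θ.card).factorial := Nat.factorial_le (by omega)
    rw [hf]
    exact h2
  have hf0 : 0 < f := by omega
  have hfC : (f : ℂ) ≠ 0 := Nat.cast_ne_zero.mpr hf0.ne'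
  have hsmall : ∀ j, 1 ≤ j → j ≤ 2 * Θ.card →
      κ 1 j ∈ IntermediateField.adjoin ℚ {exp (2 * Real.pi * I / f)} := by
    intro j hj1 hj2
    obtain ⟨m, hm⟩ := hκ j hj1
    obtain ⟨c, hc⟩ : j ∣ f := by
      rw [hf]
      exact Nat.dvd_factorial hj1 hj2
    have hjC : (j : ℂ) ≠ 0 := Nat.cast_ne_zero.mpr (by omega)
    have hcC : (c : ℂ) ≠ 0 := by
      intro h
      apply hfC
      rw [hc, Nat.cast_mul, h, mul_zero]
    rw [hm 1]
    apply sum_mem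
    intro k _
    apply mul_mem
    · exact natCast_mem _ _
    · have h2 : exp (2 * Real.pi * I * ((k : ℕ) * (1 : ℕ)) / j) =
          exp (2 * Real.pi * I / f) ^ ((k : ℕ) * c) := by
        rw [← exp_nat_mul]
        congr 1
        rw [hc]
        push_cast
        field_simp
      rw [h2]
      exact pow_mem (IntermediateField.subset_adjoin ℚ _ (Set.mem_singleton _)) _
  have hall : ∀ j, 1 ≤ j → κ 1 j ∈ IntermediateField.adjoin ℚ {exp (2 * Real.pi * I / f)} := by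
    intro j hj
    have h2 := power_sums_mem (IntermediateField.adjoin ℚ {exp (2 * Real.pi * I / f)}).toSubfield
      Θ (fun θ => (η θ : ℂ)) (fun θ hθ => Complex.ofReal_ne_zero.mpr (hη θ hθ).ne') h0
      (fun i hi1 hi2 => by
        rw [← h1 i hi1]
        exact hsmall i hi1 hi2) j hj
    rw [← h1 j hj] at h2
    exact h2
  obtain ⟨B0, hB0⟩ : ∃ B0 : ℝ, ∀ a : ℕ, 1 ≤ a → a ≤ f → ∀ j : ℕ, 0 < j → ‖κ a j‖ ≤ B0 := by
    choose! B hB' using hB
    refine ⟨∑ a ∈ Finset.range (f + 1), |B a|, fun a ha1 ha2 j hj => ?_⟩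
    refine le_trans (hB' a ha1 j hj) (le_trans (le_abs_self _) ?_)
    exact Finset.single_le_sum (f := fun a => |B a|) (fun i _ => abs_nonneg _)
      (Finset.mem_range.mpr (by omega))
  refine roots_of_unity_of_finite Θ η hη h0 f hf2 ?_ θ hθ
  refine (finite_bounded f hf0 B0).subset ?_
  rintro x ⟨k, i, hi1, hi2, hx⟩
  have hj : 0 < f ^ k * i := Nat.mul_pos (pow_pos hf0 k) hi1
  have hxκ : x = κ 1 (f ^ k * i) := by
    rw [hx, h1 _ hj]
  have hxE : x ∈ IntermediateField.adjoin ℚ {exp (2 * Real.pi * I / f)} := by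
    rw [hxκ]
    exact hall _ hj
  obtain ⟨m, hm⟩ := hκ (f ^ k * i) hj
  have hfj : ∀ p : ℕ, p.Prime → p ∣ f ^ k * i → p ∣ f := by
    intro p hp hpd
    rcases (Nat.Prime.dvd_mul hp).mp hpd with h2 | h2
    · exact hp.dvd_of_dvd_pow h2
    · rw [hf]
      exact hp.dvd_factorial.mpr (le_trans (Nat.le_of_dvd hi1 h2) hi2)
  have hx2 : x = ∑ l : Fin (f ^ k * i), (m l : ℂ) *
      exp (2 * Real.pi * I * (l : ℕ) / (f ^ k * i : ℕ)) := by
    rw [hxκ, hm 1]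
    apply Finset.sum_congr rfl
    intro l _
    rw [Nat.cast_one, mul_one]
  exact ⟨hxE, conj_bound f (f ^ k * i) hf0 hj hfj m x hx2 hxE B0 (fun a ha1 ha2 => by
    rw [← hm a]
    exact hB0 a ha1 ha2 _ hj)⟩

end Pool.Agent.ST5
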