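import Pool.Agent.ST5.N.V3
import Pool.Agent.ST5.N.V4

/-!
ST6 row V5. The arithmetic part: the moments 1, 2, 2, ..., 2 are impossible.

PROOF. B' := max B 1 > 0; (α, J, L) from `exists_test m B'`; N0 := 1 + J * L. Given the data, take e, H, t from
`galois_average`. For c ∈ H: ∑ η θ θ^(c) = 1 (j = 1), ∑ η θ θ^(j c) = 2 for j = 1 + (i+1) L, i < J (2 ≤ j ≤ N0); take real parts:
Re θ^(j c) = cos(2π t θ c j/e). Hence
 ∑_θ η θ ∑_{c∈H} (α + cos(2π t c/e) - (1/J) ∑_i cos(2π t c (1+(i+1)L)/e))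
  = |H| (α ∑ η θ + 1 - 2) ≤ |H| (α B' - 1) < 0   (α ≥ 0, ∑ η θ ≤ B ≤ B', |H| ≥ 1),
but each term is ≥ 0 by `exists_test` (η θ > 0). Contradiction.
-/

namespace Pool.Agent.ST5

/-- real part of a power of a root of unity -/
lemma V5_re (e : ℕ) (θ : ℂ) (t n : ℕ) (h : θ = Complex.exp (2 * Real.pi * Complex.I * t / e)) :
    (θ ^ n).re = Real.cos (2 * Real.pi * (t * n) / e) := by
  have h1 : θ ^ n = Complex.exp (((2 * Real.pi * (t * n) / e : ℝ) : ℂ) * Complex.I) := by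
    rw [h, ← Complex.exp_nat_mul]
    congr 1
    push_cast
    ring
  rw [h1, Complex.exp_ofReal_mul_I_re]

/-- the real part of a weighted power sum -/
lemma V5_sum (Θ : Finset ℂ) (η : ℂ → ℝ) (e : ℕ) (t : ℂ → ℕ)
    (hθ : ∀ θ ∈ Θ, θ = Complex.exp (2 * Real.pi * Complex.I * (t θ) / e)) (n : ℕ) (q : ℝ)
    (h : ∑ θ ∈ Θ, (η θ : ℂ) * θ ^ n = (q : ℂ)) :
    ∑ θ ∈ Θ, η θ * Real.cos (2 * Real.pi * (t θ * n) / e) = q := by
  have h1 := congrArg Complex.re h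
  rw [Complex.re_sum, Complex.ofReal_re] at h1
  rw [← h1]
  refine Finset.sum_congr rfl fun θ hθ' => ?_
  rw [Complex.re_ofReal_mul, V5_re e θ (t θ) n (hθ θ hθ')]

theorem arithmetic_part (m : ℕ) (B : ℝ) : ∃ N0 : ℕ, ∀ (Θ : Finset ℂ) (η : ℂ → ℝ)
    (K : IntermediateField ℚ ℂ) (_ : FiniteDimensional ℚ K), Module.finrank ℚ K ≤ m →
    (∀ θ ∈ Θ, 0 < η θ) → (∀ θ ∈ Θ, (η θ : ℂ) ∈ K) → (∀ θ ∈ Θ, ∃ n : ℕ, 0 < n ∧ θ ^ n = 1) →
    ∑ θ ∈ Θ, η θ ≤ B → ∑ θ ∈ Θ, (η θ : ℂ) * θ = 1 →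
    (∀ j, 2 ≤ j → j ≤ N0 → ∑ θ ∈ Θ, (η θ : ℂ) * θ ^ j = 2) → False := by
  obtain ⟨α, J, L, hJ, hL, hαB, hα, htest⟩ := exists_test m (max B 1)
    (lt_of_lt_of_le one_pos (le_max_right _ _))
  refine ⟨1 + J * L, ?_⟩
  intro Θ η K hfd hm hη hηK hΘ hB h1 h2
  obtain ⟨e, hne, H, hfin, t, htot, hθ, hgal⟩ := galois_average Θ η K m hm hηK hΘ
  have hJ0 : (J : ℝ) ≠ 0 := by exact_mod_cast hJ.ne'
  -- the real identities
  have hA : ∀ c : H, ∑ θ ∈ Θ, η θ * Real.cos (2 * Real.pi *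
      (t θ * ((((c : (ZMod e)ˣ)) : ZMod e).val : ℕ)) / e) = 1 := by
    intro c
    have h3 := hgal c c.2 1 1 (by simpa using h1)
    rw [one_mul] at h3
    exact V5_sum Θ η e t hθ _ 1 (by simpa using h3)
  have hC : ∀ c : H, ∀ i ∈ Finset.range J, ∑ θ ∈ Θ, η θ * Real.cos (2 * Real.pi *
      (t θ * ((((c : (ZMod e)ˣ)) : ZMod e).val : ℕ) * (1 + (i + 1) * L)) / e) = 2 := by
    intro c i hi
    rw [Finset.mem_range] at hi
    have hj1 : 2 ≤ 1 + (i + 1) * L := by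
      have : 0 < (i + 1) * L := Nat.mul_pos (by omega) hL
      omega
    have hj2 : 1 + (i + 1) * L ≤ 1 + J * L := by
      have : (i + 1) * L ≤ J * L := Nat.mul_le_mul_right L (by omega)
      omega
    have h3 := hgal c c.2 (1 + (i + 1) * L) 2 (by simpa using h2 _ hj1 hj2)
    have h4 := V5_sum Θ η e t hθ _ 2 (by simpa using h3)
    refine Eq.trans ?_ h4
    refine Finset.sum_congr rfl fun θ _ => ?_
    congr 3
    push_cast
    ring
  have hpos : 0 ≤ ∑ θ ∈ Θ, η θ * ∑ c : H, (α + Real.cos (2 * Real.pi * (t θ *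
        ((((c : (ZMod e)ˣ)) : ZMod e).val : ℕ)) / e) -
        (1 / (J : ℝ)) * ∑ i ∈ Finset.range J,
          Real.cos (2 * Real.pi * (t θ * ((((c : (ZMod e)ˣ)) : ZMod e).val : ℕ) *
            (1 + (i + 1) * L)) / e)) :=
    Finset.sum_nonneg fun θ hθ' => mul_nonneg (hη θ hθ').le (htest e H htot (t θ))
  have heq : ∑ θ ∈ Θ, η θ * ∑ c : H, (α + Real.cos (2 * Real.pi * (t θ *
        ((((c : (ZMod e)ˣ)) : ZMod e).val : ℕ)) / e) -
        (1 / (J : ℝ)) * ∑ i ∈ Finset.range J,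
          Real.cos (2 * Real.pi * (t θ * ((((c : (ZMod e)ˣ)) : ZMod e).val : ℕ) *
            (1 + (i + 1) * L)) / e)) =
      ∑ _c : H, (α * ∑ θ ∈ Θ, η θ - 1) := by
    simp only [Finset.mul_sum (s := (Finset.univ : Finset H))]
    rw [Finset.sum_comm]
    refine Finset.sum_congr rfl fun c _ => ?_
    have e1 : ∀ θ, η θ * (α + Real.cos (2 * Real.pi * (t θ *
        ((((c : (ZMod e)ˣ)) : ZMod e).val : ℕ)) / e) -
        (1 / (J : ℝ)) * ∑ i ∈ Finset.range J,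
          Real.cos (2 * Real.pi * (t θ * ((((c : (ZMod e)ˣ)) : ZMod e).val : ℕ) *
            (1 + (i + 1) * L)) / e)) =
        α * η θ + η θ * Real.cos (2 * Real.pi * (t θ *
        ((((c : (ZMod e)ˣ)) : ZMod e).val : ℕ)) / e) -
        (1 / (J : ℝ)) * ∑ i ∈ Finset.range J,
          η θ * Real.cos (2 * Real.pi * (t θ * ((((c : (ZMod e)ˣ)) : ZMod e).val : ℕ) *
            (1 + (i + 1) * L)) / e) := by
      intro θ
      rw [← Finset.mul_sum]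
      ring
    rw [Finset.sum_congr rfl fun θ _ => e1 θ, Finset.sum_sub_distrib, Finset.sum_add_distrib,
      hA c, ← Finset.mul_sum, ← Finset.mul_sum, Finset.sum_comm,
      Finset.sum_congr rfl (hC c), Finset.sum_const, Finset.card_range, nsmul_eq_mul]
    field_simp
    ring
  rw [heq, Finset.sum_const, nsmul_eq_mul] at hpos
  have hcard : (0 : ℝ) < ((Finset.univ : Finset H).card : ℝ) := by
    have : 0 < (Finset.univ : Finset H).card := Finset.card_pos.2 ⟨1, Finset.mem_univ _⟩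
    exact_mod_cast this
  have hneg : α * ∑ θ ∈ Θ, η θ - 1 < 0 := by
    have : α * ∑ θ ∈ Θ, η θ ≤ α * max B 1 :=
      mul_le_mul_of_nonneg_left (hB.trans (le_max_left _ _)) hα
    linarith
  have := mul_neg_of_pos_of_neg hcard hneg
  linarith

end Pool.Agent.ST5
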