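import Mathlib

/-!
ST6 row N1. A sequence of power sums is determined, over a subfield, by its first 2n terms.

PROOF. n = Θ.card. The Hankel matrix M i k = u (i+k+1), i, k < n, u j = ∑ η θ^j, is V diag(η θ · θ) Vᵀ with the
Vandermonde matrix V of the distinct θ's, so it is invertible (`Matrix.det_vandermonde_ne_zero_iff`);
its entries are in E (indices ≤ 2n-1), and so is the vector b i = u (n+i+1) (indices ≤ 2n). So there is a unique c with M c = b and c is in
E^n (Cramer / the inverse matrix: `Matrix.inv_def`, entries of the adjugate and the determinant of a matrix with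
entries in the subfield E; do it by working with the matrix over E and mapping to ℂ). The polynomial
X^n - ∑ c_k X^k kills the θ's: w_θ := θ^n - ∑ c_k θ^k satisfies ∑_θ η θ · θ^{i+1} w_θ = 0 for i < n, so w = 0
(Vandermonde). Hence u (j+n) = ∑_k c_k u (j+k) for all j ≥ 1, and induction. (n = 0: all sums are 0.)
-/

namespace Pool.Agent.ST5

theorem power_sums_mem (E : Subfield ℂ) (Θ : Finset ℂ) (η : ℂ → ℂ) (hη : ∀ θ ∈ Θ, η θ ≠ 0)
    (h0 : ∀ θ ∈ Θ, θ ≠ 0)
    (h : ∀ j, 1 ≤ j → j ≤ 2 * Θ.card → ∑ θ ∈ Θ, η θ * θ ^ j ∈ E) :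
    ∀ j, 1 ≤ j → ∑ θ ∈ Θ, η θ * θ ^ j ∈ E := by
  classical
  set n := Θ.card with hn
  set t : Fin n → ℂ := fun l => ((Θ.equivFin.symm l : Θ) : ℂ) with ht
  have htinj : Function.Injective t := by
    intro a b hab
    exact Θ.equivFin.symm.injective (Subtype.ext hab)
  have htmem : ∀ l, t l ∈ Θ := fun l => (Θ.equivFin.symm l).2
  have hS : ∀ j : ℕ, ∑ θ ∈ Θ, η θ * θ ^ j = ∑ l : Fin n, η (t l) * t l ^ j := by
    intro j
    rw [← Finset.sum_coe_sort Θ (fun θ => η θ * θ ^ j)]
    exact (Equiv.sum_comp Θ.equivFin.symm (fun θ : Θ => η (θ : ℂ) * (θ : ℂ) ^ j)).symm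
  set S : ℕ → ℂ := fun j => ∑ l : Fin n, η (t l) * t l ^ j with hSdef
  have hmem : ∀ j, 1 ≤ j → j ≤ 2 * n → S j ∈ E := by
    intro j h1 h2
    have := h j h1 h2
    rw [hS j] at this
    exact this
  -- the Hankel matrix over E
  let ME : Matrix (Fin n) (Fin n) E := fun i k =>
    ⟨S (i.val + k.val + 1), hmem _ (by omega) (by have := i.2; have := k.2; omega)⟩
  let bE : Fin n → E := fun i => ⟨S (n + i.val + 1), hmem _ (by omega) (by have := i.2; omega)⟩
  let V : Matrix (Fin n) (Fin n) ℂ := Matrix.vandermonde t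
  have hVdet : V.det ≠ 0 := Matrix.det_vandermonde_ne_zero_iff.2 htinj
  have hmap : ME.map (algebraMap E ℂ) =
      V.transpose * Matrix.diagonal (fun l => η (t l) * t l) * V := by
    ext i k
    rw [Matrix.mul_apply]
    simp only [Matrix.mul_diagonal, Matrix.transpose_apply, V, Matrix.vandermonde_apply,
      Matrix.map_apply]
    change S (i.val + k.val + 1) = _
    rw [hSdef]
    refine Finset.sum_congr rfl fun l _ => ?_
    ring
  have hdet : (ME.map (algebraMap E ℂ)).det ≠ 0 := by
    rw [hmap, Matrix.det_mul, Matrix.det_mul, Matrix.det_transpose, Matrix.det_diagonal]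
    refine mul_ne_zero (mul_ne_zero hVdet ?_) hVdet
    rw [Finset.prod_ne_zero_iff]
    intro l _
    exact mul_ne_zero (hη _ (htmem l)) (h0 _ (htmem l))
  have hdetE : ME.det ≠ 0 := by
    intro h0'
    apply hdet
    have := RingHom.map_det (algebraMap E ℂ) ME
    rw [h0', map_zero] at this
    exact this.symm
  have hunit : IsUnit ME.det := isUnit_iff_ne_zero.2 hdetE
  let cE : Fin n → E := ME⁻¹.mulVec bE
  have hcE : ME.mulVec cE = bE := by
    change ME.mulVec (ME⁻¹.mulVec bE) = bE
    rw [Matrix.mulVec_mulVec, Matrix.mul_nonsing_inv _ hunit, Matrix.one_mulVec]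
  have hc : ∀ i : Fin n, ∑ k : Fin n, S (i.val + k.val + 1) * (cE k : ℂ) = S (n + i.val + 1) := by
    intro i
    have h1 := congrFun hcE i
    have h2 := congrArg (fun x : E => (x : ℂ)) h1
    simp only [Matrix.mulVec, dotProduct] at h2
    change _ = S (n + i.val + 1) at h2
    rw [← h2]
    have h3 := map_sum (algebraMap E ℂ) (fun k => ME i k * cE k) Finset.univ
    refine Eq.trans ?_ h3.symm
    refine Finset.sum_congr rfl fun k _ => ?_
    rw [map_mul]
    rfl
  have hw : (fun l : Fin n => η (t l) * t l * (t l ^ n - ∑ k : Fin n, (cE k : ℂ) * t l ^ k.val))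
      = 0 := by
    apply Matrix.eq_zero_of_forall_pow_sum_mul_pow_eq_zero htinj
    intro i
    have h1 := hc i
    simp only [hSdef] at h1
    have h2 : ∑ j : Fin n, η (t j) * t j * (t j ^ n - ∑ k : Fin n, (cE k : ℂ) * t j ^ k.val) *
        t j ^ i.val = ∑ l : Fin n, η (t l) * t l ^ (n + i.val + 1) -
        ∑ k : Fin n, (∑ l : Fin n, η (t l) * t l ^ (i.val + k.val + 1)) * (cE k : ℂ) := by
      simp only [Finset.sum_mul]
      rw [Finset.sum_comm, ← Finset.sum_sub_distrib]
      refine Finset.sum_congr rfl fun l _ => ?_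
      rw [mul_sub, sub_mul, Finset.mul_sum, Finset.sum_mul]
      congr 1
      · ring
      · refine Finset.sum_congr rfl fun k _ => ?_
        ring
    rw [h2, h1, sub_self]
  have hrec : ∀ l : Fin n, t l ^ n = ∑ k : Fin n, (cE k : ℂ) * t l ^ k.val := by
    intro l
    have h1 := congrFun hw l
    simp only [Pi.zero_apply] at h1
    rcases mul_eq_zero.1 h1 with h2 | h2
    · exact absurd h2 (mul_ne_zero (hη _ (htmem l)) (h0 _ (htmem l)))
    · exact sub_eq_zero.1 h2
  have hSrec : ∀ j : ℕ, S (j + n) = ∑ k : Fin n, (cE k : ℂ) * S (j + k.val) := by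
    intro j
    simp only [hSdef, Finset.mul_sum]
    rw [Finset.sum_comm]
    refine Finset.sum_congr rfl fun l _ => ?_
    rw [pow_add, hrec l, Finset.mul_sum, Finset.mul_sum]
    refine Finset.sum_congr rfl fun k _ => ?_
    rw [pow_add]
    ring
  intro j
  rw [hS j]
  change 1 ≤ j → S j ∈ E
  induction j using Nat.strong_induction_on with
  | _ j ih =>
    intro hj
    rcases Nat.lt_or_ge (2 * n) j with h2 | h2
    · obtain ⟨j', rfl⟩ : ∃ j', j = j' + n := ⟨j - n, by omega⟩
      rw [hSrec]
      refine E.sum_mem fun k _ => ?_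
      have hk := k.2
      exact E.mul_mem (cE k).2 (ih _ (by omega) (by omega))
    · exact hmem j hj h2

end Pool.Agent.ST5
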