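import Mathlib

/-!
ST6 row V1. A lower bound for Euler's totient: n^5 ≤ 32 φ(n)^8.

PROOF. Multiplicative: for an odd prime power p^k (k ≥ 1): φ = p^(k-1) (p-1), and p^5 ≤ (p-1)^8 for p ≥ 3
(243 ≤ 256 for p = 3; for p ≥ 5, p ≤ (p-1)^(8/5): e.g. p ≤ (p-1)^(3/2) is false at small p; use p^5 ≤ (p-1)^8 by
p ≤ 2 (p-1) hence p^5 ≤ 32 (p-1)^5 ≤ (p-1)^8 as (p-1)^3 ≥ 64 for p ≥ 5), so (p^k)^5 = p^(5(k-1)) p^5 ≤ p^(8(k-1)) (p-1)^8.
For 2^k: 2^(5k) ≤ 32 * 2^(8(k-1)) for k ≥ 1. Induction with `Nat.recOnPosPrimePosCoprime` /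
`Nat.recOnMul`-type induction over coprime factors: prove for odd n: n^5 ≤ φ(n)^8, and n = 2^k * odd.
-/

namespace Pool.Agent.ST5

/-- the base inequality for primes `≥ 3` -/
lemma V1_prime (p : ℕ) (hp : 3 ≤ p) : p ^ 5 ≤ (p - 1) ^ 8 := by
  rcases Nat.lt_or_ge p 5 with h | h
  · interval_cases p <;> norm_num
  · obtain ⟨q, rfl⟩ : ∃ q, p = q + 1 := ⟨p - 1, by omega⟩
    have hq : 4 ≤ q := by omega
    simp only [Nat.add_sub_cancel]
    calc (q + 1) ^ 5 ≤ (2 * q) ^ 5 := Nat.pow_le_pow_left (by omega) 5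
      _ = 32 * q ^ 5 := by ring
      _ ≤ q ^ 3 * q ^ 5 := by
          apply Nat.mul_le_mul_right
          calc 32 ≤ 4 ^ 3 := by norm_num
            _ ≤ q ^ 3 := Nat.pow_le_pow_left hq 3
      _ = q ^ 8 := by ring

/-- the inequality for odd numbers -/
lemma V1_odd (n : ℕ) : Odd n → n ^ 5 ≤ (Nat.totient n) ^ 8 := by
  induction n using Nat.recOnPosPrimePosCoprime with
  | prime_pow p k hp hk =>
    intro hodd
    obtain ⟨j, rfl⟩ : ∃ j, k = j + 1 := ⟨k - 1, by omega⟩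
    have hpo : Odd p := by
      rcases hp.eq_two_or_odd' with h | h
      · subst h
        exfalso
        rw [Nat.odd_iff] at hodd
        rw [pow_succ] at hodd
        omega
      · exact h
    have hp3 : 3 ≤ p := by
      have h2 := hp.two_le
      rcases Nat.lt_or_ge p 3 with h | h
      · have : p = 2 := by omega
        subst this
        exact absurd hpo (by decide)
      · exact h
    rw [Nat.totient_prime_pow_succ hp]
    have h1 := V1_prime p hp3
    calc (p ^ (j + 1)) ^ 5 = (p ^ j) ^ 5 * p ^ 5 := by rw [pow_succ p j, mul_pow]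
      _ ≤ (p ^ j) ^ 8 * (p - 1) ^ 8 := by
          apply Nat.mul_le_mul _ h1
          exact Nat.pow_le_pow_right (Nat.pos_of_ne_zero (by positivity)) (by norm_num)
      _ = (p ^ j * (p - 1)) ^ 8 := by rw [mul_pow]
  | zero => intro h; exact absurd h (by decide)
  | one => intro _; simp
  | coprime a b ha hb hab iha ihb =>
    intro hodd
    rw [Nat.odd_mul] at hodd
    rw [Nat.totient_mul hab, mul_pow, mul_pow]
    exact Nat.mul_le_mul (iha hodd.1) (ihb hodd.2)

theorem totient_bound (n : ℕ) (hn : 0 < n) : n ^ 5 ≤ 32 * (Nat.totient n) ^ 8 := by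
  obtain ⟨k, m, hm, rfl⟩ := Nat.exists_eq_two_pow_mul_odd hn.ne'
  have h1 := V1_odd m hm
  rcases Nat.eq_zero_or_pos k with hk | hk
  · subst hk
    simp only [pow_zero, one_mul]
    omega
  · obtain ⟨j, rfl⟩ : ∃ j, k = j + 1 := ⟨k - 1, by omega⟩
    have hcop : Nat.Coprime (2 ^ (j + 1)) m := by
      apply Nat.Coprime.pow_left
      exact (Nat.coprime_two_left).2 hm
    rw [Nat.totient_mul hcop, Nat.totient_prime_pow_succ Nat.prime_two]
    calc (2 ^ (j + 1) * m) ^ 5 = 32 * ((2 ^ j) ^ 5 * m ^ 5) := by rw [pow_succ]; ring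
      _ ≤ 32 * ((2 ^ j) ^ 8 * (Nat.totient m) ^ 8) := by
          apply Nat.mul_le_mul_left
          apply Nat.mul_le_mul _ h1
          exact Nat.pow_le_pow_right (by positivity) (by norm_num)
      _ = 32 * (2 ^ j * (2 - 1) * Nat.totient m) ^ 8 := by simp only [Nat.add_one_sub_one]; ring

end Pool.Agent.ST5
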