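import Mathlib

/-!
ST6 row V2. Exponential sums over subgroups of (ℤ/s)^*, and over the image of a frequency.

`subgroup_sum`: f t = ∑_{c ∈ H} e(t c / s), t ∈ ZMod s. f (t h) = f t for h ∈ H. Parseval:
∑_{t ∈ ZMod s} |f t|² = ∑_{c,c'} ∑_t e(t (c - c')/s) = s |H|. The |H| elements t ∈ H (units) have |f t| = |f 1|, so
|f 1|² |H| ≤ s |H|, i.e. |f 1|² ≤ s. (Use `ZMod.stdAddChar`/`AddChar.sum_eq_ite` or geometric sums for
∑_t e(t d/s) = s [d = 0].) The exponentials may be treated as ZMod.stdAddChar: e(c.val/s) = ZMod.stdAddChar c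
(`ZMod.stdAddChar_coe`/`ZMod.toCircle`).
`frequency_sum`: H subgroup of (ZMod e)ˣ, φ(e) ≤ m |H|, t natural, s = e / gcd e t. Reduction mod s
π : (ZMod e)ˣ → (ZMod s)ˣ (`ZMod.unitsMap`, surjective) maps H onto H' = H.map π, e(t c/e) = e(t' π(c)/s) with t' = t / gcd, a unit mod s; the
fibres of H → H' have all |H|/|H'| elements, and |H'| ≥ φ(s)/m: index of H' ≤ index of H ≤ m. So
|∑_{c∈H} e(t c / e)| = (|H|/|H'|) |∑_{c ∈ H'} e(t' c/s)| ≤ |H| √s / |H'| ≤ |H| m √s / φ(s)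
(the sum over H' with the unit t' is |f t'| ≤ √s by the same Parseval argument: state `subgroup_sum` with a unit
factor u).
-/

namespace Pool.Agent.ST5

open Complex in
theorem V2_char (s : ℕ) [NeZero s] (a : ZMod s) :
    exp (2 * Real.pi * I * (a.val : ℕ) / s) = ZMod.stdAddChar a := by
  have h := ZMod.stdAddChar_coe (N := s) (a.val : ℤ)
  have h2 : (((a.val : ℕ) : ℤ) : ZMod s) = a := by simp
  rw [h2] at h
  rw [h]
  push_cast
  rfl

theorem V2_parseval (s : ℕ) [NeZero s] {ι : Type*} [Fintype ι] [DecidableEq ι] (c : ι → ZMod s)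
    (hc : Function.Injective c) :
    ∑ t : ZMod s, ‖∑ i, (ZMod.stdAddChar (t * c i) : ℂ)‖ ^ 2 = (s : ℝ) * Fintype.card ι := by
  have h0 : ∀ t : ZMod s, (((‖∑ i, (ZMod.stdAddChar (t * c i) : ℂ)‖ ^ 2 : ℝ)) : ℂ) =
      ∑ i, ∑ j, (ZMod.stdAddChar (t * (c i - c j)) : ℂ) := by
    intro t
    rw [Complex.ofReal_pow, ← Complex.mul_conj', map_sum, Finset.sum_mul_sum]
    refine Finset.sum_congr rfl fun i _ => Finset.sum_congr rfl fun j _ => ?_
    rw [← AddChar.map_neg_eq_conj, ← AddChar.map_add_eq_mul]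
    congr 1
    ring
  have h1 : (((∑ t : ZMod s, ‖∑ i, (ZMod.stdAddChar (t * c i) : ℂ)‖ ^ 2 : ℝ)) : ℂ) =
      (((s : ℝ) * Fintype.card ι : ℝ) : ℂ) := by
    rw [Complex.ofReal_sum]
    rw [Finset.sum_congr rfl fun t _ => h0 t, Finset.sum_comm]
    have h2 : ∀ i : ι, ∑ t : ZMod s, ∑ j, (ZMod.stdAddChar (t * (c i - c j)) : ℂ) = s := by
      intro i
      rw [Finset.sum_comm]
      have h3 : ∀ j : ι, ∑ t : ZMod s, (ZMod.stdAddChar (t * (c i - c j)) : ℂ) =
          if j = i then (s : ℂ) else 0 := by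
        intro j
        rw [AddChar.sum_mulShift _ (ZMod.isPrimitive_stdAddChar s), ZMod.card]
        by_cases h : j = i
        · rw [if_pos h, if_pos (by rw [h, sub_self])]
        · rw [if_neg h, if_neg]
          · simp
          · intro h4
            exact h (hc (sub_eq_zero.1 h4)).symm
      rw [Finset.sum_congr rfl fun j _ => h3 j, Finset.sum_ite_eq' Finset.univ i]
      simp
    rw [Finset.sum_congr rfl fun i _ => h2 i]
    simp [mul_comm]
  exact_mod_cast h1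

theorem V2_sub (s : ℕ) [NeZero s] (H : Subgroup (ZMod s)ˣ) [Fintype H] (u : (ZMod s)ˣ) :
    ‖∑ c : H, (ZMod.stdAddChar (((u * (c : (ZMod s)ˣ)) : (ZMod s)ˣ) : ZMod s) : ℂ)‖ ^ 2 ≤ s := by
  classical
  have hp := V2_parseval s (fun c : H => (((c : (ZMod s)ˣ)) : ZMod s))
    (fun a b h => Subtype.ext (Units.ext h))
  have h1 : ∀ h : H, ‖∑ c : H, (ZMod.stdAddChar
      ((((u * (h : (ZMod s)ˣ)) : (ZMod s)ˣ) : ZMod s) * (((c : (ZMod s)ˣ)) : ZMod s)) : ℂ)‖ ^ 2 =
      ‖∑ c : H, (ZMod.stdAddChar (((u * (c : (ZMod s)ˣ)) : (ZMod s)ˣ) : ZMod s) : ℂ)‖ ^ 2 := by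
    intro h
    congr 2
    refine Fintype.sum_equiv (Equiv.mulLeft h) _ _ fun c => ?_
    congr 1
    rw [← Units.val_mul, Equiv.coe_mulLeft, Subgroup.coe_mul, mul_assoc]
  have h2 : ∑ h : H, ‖∑ c : H, (ZMod.stdAddChar
      ((((u * (h : (ZMod s)ˣ)) : (ZMod s)ˣ) : ZMod s) * (((c : (ZMod s)ˣ)) : ZMod s)) : ℂ)‖ ^ 2 ≤
      ∑ t : ZMod s, ‖∑ c : H, (ZMod.stdAddChar (t * (((c : (ZMod s)ˣ)) : ZMod s)) : ℂ)‖ ^ 2 := by
    have hinj : Function.Injective
        (fun h : H => (((u * (h : (ZMod s)ˣ)) : (ZMod s)ˣ) : ZMod s)) := by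
      intro a b hab
      exact Subtype.ext (mul_left_cancel (Units.ext hab))
    have h3 := Finset.sum_map (Finset.univ : Finset H) ⟨_, hinj⟩
      (fun t : ZMod s => ‖∑ c : H, (ZMod.stdAddChar (t * (((c : (ZMod s)ˣ)) : ZMod s)) : ℂ)‖ ^ 2)
    refine le_trans (le_of_eq h3.symm) ?_
    exact Finset.sum_le_sum_of_subset_of_nonneg (Finset.subset_univ _)
      fun _ _ _ => pow_nonneg (norm_nonneg _) _
  rw [Finset.sum_congr rfl fun h _ => h1 h, Finset.sum_const, Finset.card_univ, nsmul_eq_mul,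
    hp] at h2
  have h3 : (0 : ℝ) < Fintype.card H := by
    exact_mod_cast Fintype.card_pos
  nlinarith [h2, h3]

/-- the fibres of a surjective homomorphism -/
theorem V2_fib {G G' : Type*} [Group G] [Group G'] [Fintype G] [Fintype G'] [DecidableEq G']
    (f : G →* G') (hf : Function.Surjective f) (F : G' → ℂ) :
    ∑ x : G, F (f x) = ((Finset.univ.filter fun g => f g = 1).card : ℂ) * ∑ y : G', F y := by
  classical
  rw [← Finset.sum_fiberwise Finset.univ f (fun x => F (f x)), Finset.mul_sum]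
  refine Finset.sum_congr rfl fun y _ => ?_
  rw [Finset.sum_congr rfl (g := fun _ => F y) fun x hx => by rw [(Finset.mem_filter.1 hx).2],
    Finset.sum_const, nsmul_eq_mul]
  congr 2
  exact MonoidHom.card_fiber_eq_of_mem_range f (hf y) (hf 1)

theorem V2_card {G G' : Type*} [Group G] [Group G'] [Fintype G] [Fintype G'] [DecidableEq G']
    (f : G →* G') (hf : Function.Surjective f) :
    Fintype.card G = (Finset.univ.filter fun g => f g = 1).card * Fintype.card G' := by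
  have h := V2_fib f hf (fun _ => 1)
  simp only [Finset.sum_const, Finset.card_univ, nsmul_eq_mul, mul_one] at h
  exact_mod_cast h

open Complex in
theorem subgroup_sum (s : ℕ) [NeZero s] (H : Subgroup (ZMod s)ˣ) [Fintype H] (u : (ZMod s)ˣ) :
    ‖∑ c : H, exp (2 * Real.pi * I * ((((u * (c : (ZMod s)ˣ)) : (ZMod s)ˣ) : ZMod s).val : ℕ) / s)‖ ^ 2
      ≤ s := by
  simp only [V2_char]
  exact V2_sub s H u

open Complex in
theorem frequency_sum (e : ℕ) [NeZero e] (H : Subgroup (ZMod e)ˣ) [Fintype H] (m : ℕ)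
    (hm : Nat.totient e ≤ m * Fintype.card H) (t : ℕ) :
    ‖∑ c : H, exp (2 * Real.pi * I * (t * ((((c : (ZMod e)ˣ)) : ZMod e).val : ℕ)) / e)‖ *
        Nat.totient (e / Nat.gcd e t)
      ≤ Fintype.card H * (m * Real.sqrt ((e / Nat.gcd e t : ℕ) : ℝ)) := by
  classical
  have he : 0 < e := Nat.pos_of_ne_zero (NeZero.ne e)
  obtain ⟨g, hg⟩ : ∃ g, g = Nat.gcd e t := ⟨_, rfl⟩
  have hg0 : 0 < g := by rw [hg]; exact Nat.gcd_pos_of_pos_left _ he
  obtain ⟨s, hs⟩ : g ∣ e := by rw [hg]; exact Nat.gcd_dvd_left _ _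
  obtain ⟨t', ht'⟩ : g ∣ t := by rw [hg]; exact Nat.gcd_dvd_right _ _
  have hs0 : s ≠ 0 := by
    rintro rfl
    omega
  have : NeZero s := ⟨hs0⟩
  have hse : s ∣ e := ⟨g, by rw [hs, mul_comm]⟩
  have hdiv : e / Nat.gcd e t = s := by
    rw [← hg, hs, Nat.mul_div_cancel_left _ hg0]
  have hcop : Nat.Coprime t' s := by
    have h1 := Nat.coprime_div_gcd_div_gcd (m := e) (n := t) (by rw [← hg]; exact hg0)
    rw [← hg, hs, ht', Nat.mul_div_cancel_left _ hg0, Nat.mul_div_cancel_left _ hg0] at h1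
    exact h1.symm
  rw [hdiv]
  obtain ⟨φ, hφ⟩ : ∃ φ : H →* H.map (ZMod.unitsMap hse), φ = (ZMod.unitsMap hse).subgroupMap H :=
    ⟨_, rfl⟩
  have hφs : Function.Surjective φ := by
    rw [hφ]
    exact MonoidHom.subgroupMap_surjective _ _
  have hφv : ∀ c : H, ((φ c : H.map (ZMod.unitsMap hse)) : (ZMod s)ˣ) =
      ZMod.unitsMap hse (c : (ZMod e)ˣ) := by
    intro c
    rw [hφ]
    rfl
  have hterm : ∀ c : H,
      exp (2 * Real.pi * I * (t * ((((c : (ZMod e)ˣ)) : ZMod e).val : ℕ)) / e) =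
      (ZMod.stdAddChar (((ZMod.unitOfCoprime t' hcop * (φ c : (ZMod s)ˣ)) : (ZMod s)ˣ) : ZMod s) : ℂ) := by
    intro c
    have h1 : ((((ZMod.unitOfCoprime t' hcop * (φ c : (ZMod s)ˣ)) : (ZMod s)ˣ) : ZMod s)) =
        (((t' * (((c : (ZMod e)ˣ)) : ZMod e).val : ℕ) : ℤ) : ZMod s) := by
      rw [Units.val_mul, ZMod.coe_unitOfCoprime, hφv, ZMod.unitsMap_val, ZMod.cast_eq_val]
      push_cast
      rfl
    rw [h1, ZMod.stdAddChar_coe]
    congr 1
    have hg' : (g : ℂ) ≠ 0 := by exact_mod_cast hg0.ne'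
    have hs' : (s : ℂ) ≠ 0 := by exact_mod_cast hs0
    have e1 : (e : ℂ) = (g : ℂ) * s := by exact_mod_cast hs
    have e2 : (t : ℂ) = (g : ℂ) * t' := by exact_mod_cast ht'
    rw [e1, e2]
    push_cast
    field_simp
  rw [Finset.sum_congr rfl fun c _ => hterm c]
  rw [V2_fib φ hφs (fun y => (ZMod.stdAddChar
    (((ZMod.unitOfCoprime t' hcop * (y : (ZMod s)ˣ)) : (ZMod s)ˣ) : ZMod s) : ℂ)), norm_mul]
  have hsq := V2_sub s (H.map (ZMod.unitsMap hse)) (ZMod.unitOfCoprime t' hcop)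
  have hle := Real.le_sqrt_of_sq_le hsq
  have hk := V2_card φ hφs
  have hK := V2_card (ZMod.unitsMap hse) (ZMod.unitsMap_surjective hse)
  rw [ZMod.card_units_eq_totient, ZMod.card_units_eq_totient] at hK
  set k := (Finset.univ.filter fun g => φ g = 1).card with hkdef
  set K' := (Finset.univ.filter fun g => ZMod.unitsMap hse g = 1).card with hKdef
  have hkK : k ≤ K' := by
    apply Finset.card_le_card_of_injOn (fun c : H => (c : (ZMod e)ˣ))
    · intro c hc
      have h1 : φ c = 1 := (Finset.mem_filter.1 hc).2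
      have h2 := hφv c
      rw [h1] at h2
      simp only [Finset.coe_filter, Finset.mem_univ, true_and, Set.mem_ofPred_eq]
      rw [← h2]
      rfl
    · intro a _ b _ h
      exact Subtype.ext h
  have hK0 : 0 < K' := by
    apply Finset.card_pos.2
    exact ⟨1, by simp⟩
  have hmain : Nat.totient s ≤ m * Fintype.card (H.map (ZMod.unitsMap hse)) := by
    have h1 : K' * Nat.totient s ≤ K' * (m * Fintype.card (H.map (ZMod.unitsMap hse))) := by
      calc K' * Nat.totient s = Nat.totient e := hK.symm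
        _ ≤ m * Fintype.card H := hm
        _ = k * (m * Fintype.card (H.map (ZMod.unitsMap hse))) := by rw [hk]; ring
        _ ≤ _ := Nat.mul_le_mul_right _ hkK
    exact Nat.le_of_mul_le_mul_left h1 hK0
  have hmain' : (Nat.totient s : ℝ) ≤ m * Fintype.card (H.map (ZMod.unitsMap hse)) := by
    exact_mod_cast hmain
  have hk' : (Fintype.card H : ℝ) = k * Fintype.card (H.map (ZMod.unitsMap hse)) := by
    exact_mod_cast hk
  rw [hk', Complex.norm_natCast]
  have hsr : 0 ≤ Real.sqrt (s : ℝ) := Real.sqrt_nonneg _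
  calc (k : ℝ) * ‖∑ y : H.map (ZMod.unitsMap hse), (ZMod.stdAddChar
        (((ZMod.unitOfCoprime t' hcop * (y : (ZMod s)ˣ)) : (ZMod s)ˣ) : ZMod s) : ℂ)‖ *
        Nat.totient s
      ≤ (k : ℝ) * Real.sqrt s * (m * Fintype.card (H.map (ZMod.unitsMap hse))) := by
        apply mul_le_mul
        · exact mul_le_mul_of_nonneg_left hle (Nat.cast_nonneg _)
        · exact hmain'
        · exact Nat.cast_nonneg _
        · exact mul_nonneg (Nat.cast_nonneg _) hsr
    _ = _ := by ring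

end Pool.Agent.ST5
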