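import Pool.Agent.ST5.N.V1
import Pool.Agent.ST5.N.V2

/-!
ST6 row V3. The test function.

Write avg over c ∈ H of exp(2πi t c/e) =: A(t); θ = exp(2πi t/e) has order r = e / gcd(e,t). By `frequency_sum` and
`totient_bound`, |A(t)| ≤ m √s/φ(s), s = order of θ, and φ(s)^8 ≥ s^5/32 so √s/φ(s) ≤ 32^(1/8) s^(-1/8) ≤ 2 s^(-1/8) → 0; also |A| ≤ 1.
Choose ε > 0, R ∈ ℕ, J ∈ ℕ with 2 ε + 1/R + 1/J < 1/B (B > 0; e.g. ε = 1/(8 B'), R, J ≥ 8 B', B' = max B 1) and
m * 2 * s^(-1/8) ≤ ε for all s > R. L := R!, α := 2 ε + 1/R + 1/J.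
For t: r = order of θ = exp(2πi t/e).
(1) r ∣ L: θ^(1+iL) = θ, so each cosine with frequency t(1+(i+1)L) equals the one with frequency t; the sum is
 |H| α ≥ 0.
(2) r ∤ L: then r > R (all numbers ≤ R divide R!). |Re A(t)| ≤ ε. For j = 1 + (i+1) L (coprime to every prime ≤ R) the
 average of cos(2π t c j/e) is Re A(t j), of order s = r / gcd(r, j).
 (2a) some prime p ≤ R has p^k ∥ r with p^k ∤ R!: then p^k > R, p ∤ j, so p^k ∣ s, s > R, |A(tj)| ≤ ε for all i.
 (2b) otherwise r = r0 r', r0 ∣ R! composed of primes ≤ R, r' > 1 composed of primes > R. gcd(r,j) = gcd(r',j). If r' ∤ j then s is divisible by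
  a prime > R, |A(tj)| ≤ ε. The i ∈ range J with r' ∣ 1 + (i+1)L: L is invertible mod r', so they are in one residue class mod r': at most
  J/r' + 1 ≤ J/R + 1 of them; for these |A| ≤ 1.
 Average over i: ≤ ε + 1/R + 1/J. Total: α + Re A(t) - avg_i Re A(t j_i) ≥ α - ε - (ε + 1/R + 1/J) ≥ 0.
-/

namespace Pool.Agent.ST5

/-- The sum of the cosines. -/
noncomputable def V3_a (e : ℕ) [NeZero e] (H : Subgroup (ZMod e)ˣ) [Fintype H] (t : ℕ) : ℝ :=
  ∑ c : H, Real.cos (2 * Real.pi * (t * ((((c : (ZMod e)ˣ)) : ZMod e).val : ℕ)) / e)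

theorem V3_abs_le_card (e : ℕ) [NeZero e] (H : Subgroup (ZMod e)ˣ) [Fintype H] (t : ℕ) :
    |V3_a e H t| ≤ Fintype.card H := by
  rw [V3_a]
  refine (Finset.abs_sum_le_sum_abs _ _).trans ?_
  refine (Finset.sum_le_sum fun c _ => Real.abs_cos_le_one _).trans ?_
  simp

theorem V3_re (e : ℕ) [NeZero e] (H : Subgroup (ZMod e)ˣ) [Fintype H] (t : ℕ) :
    |V3_a e H t| ≤ ‖∑ c : H, Complex.exp (2 * Real.pi * Complex.I *
      (t * ((((c : (ZMod e)ˣ)) : ZMod e).val : ℕ)) / e)‖ := by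
  have h1 : V3_a e H t = (∑ c : H, Complex.exp (2 * Real.pi * Complex.I *
      (t * ((((c : (ZMod e)ˣ)) : ZMod e).val : ℕ)) / e)).re := by
    rw [V3_a, Complex.re_sum]
    refine Finset.sum_congr rfl fun c _ => ?_
    have h2 : 2 * (Real.pi : ℂ) * Complex.I * (t * ((((c : (ZMod e)ˣ)) : ZMod e).val : ℕ)) / e =
        ((2 * Real.pi * (t * ((((c : (ZMod e)ˣ)) : ZMod e).val : ℕ)) / e : ℝ) : ℂ) * Complex.I := by
      push_cast
      ring
    rw [h2, Complex.exp_ofReal_mul_I_re]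
  rw [h1]
  exact Complex.abs_re_le_norm _

/-- The estimate for frequencies of large order. -/
theorem V3_small (m : ℕ) (ε : ℝ) (hε : 0 < ε) (R : ℕ) (hR : 32 * (m : ℝ) ^ 8 ≤ ε ^ 8 * R)
    (e : ℕ) [NeZero e] (H : Subgroup (ZMod e)ˣ) [Fintype H]
    (hm : Nat.totient e ≤ m * Fintype.card H) (t : ℕ) (ht : R < e / Nat.gcd e t) :
    |V3_a e H t| ≤ ε * Fintype.card H := by
  set s := e / Nat.gcd e t with hs
  have hs0 : 0 < s := by omega
  have hφ : 0 < Nat.totient s := Nat.totient_pos.2 hs0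
  have hφ' : (0 : ℝ) < (Nat.totient s : ℝ) := by exact_mod_cast hφ
  have h1 := frequency_sum e H m hm t
  have h2 : (m : ℝ) * Real.sqrt (s : ℝ) ≤ ε * Nat.totient s := by
    have hb := totient_bound s hs0
    have hb' : (s : ℝ) ^ 5 ≤ 32 * (Nat.totient s : ℝ) ^ 8 := by exact_mod_cast hb
    have hsR : (R : ℝ) ≤ (s : ℝ) := by exact_mod_cast ht.le
    have hsp : (0 : ℝ) < (s : ℝ) := by exact_mod_cast hs0
    have h3 : ((m : ℝ) * Real.sqrt (s : ℝ)) ^ 8 ≤ (ε * Nat.totient s) ^ 8 := by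
      rw [mul_pow, mul_pow]
      have h4 : Real.sqrt (s : ℝ) ^ 8 = (s : ℝ) ^ 4 := by
        have : Real.sqrt (s : ℝ) ^ 8 = (Real.sqrt (s : ℝ) ^ 2) ^ 4 := by ring
        rw [this, Real.sq_sqrt hsp.le]
      rw [h4]
      have h5 : 32 * (m : ℝ) ^ 8 ≤ ε ^ 8 * s :=
        hR.trans (mul_le_mul_of_nonneg_left hsR (by positivity))
      have h6 : 32 * (m : ℝ) ^ 8 * (s : ℝ) ^ 4 ≤ ε ^ 8 * s * (s : ℝ) ^ 4 :=
        mul_le_mul_of_nonneg_right h5 (by positivity)
      have h7 : ε ^ 8 * (s : ℝ) ^ 5 ≤ ε ^ 8 * (32 * (Nat.totient s : ℝ) ^ 8) :=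
        mul_le_mul_of_nonneg_left hb' (by positivity)
      nlinarith
    exact (pow_le_pow_iff_left₀ (by positivity) (by positivity) (by norm_num)).1 h3
  have h8 : ‖∑ c : H, Complex.exp (2 * Real.pi * Complex.I *
      (t * ((((c : (ZMod e)ˣ)) : ZMod e).val : ℕ)) / e)‖ * Nat.totient s ≤
      (ε * Fintype.card H) * Nat.totient s := by
    refine h1.trans ?_
    have h9 : (Fintype.card H : ℝ) * ((m : ℝ) * Real.sqrt (s : ℝ)) ≤
        (Fintype.card H : ℝ) * (ε * Nat.totient s) :=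
      mul_le_mul_of_nonneg_left h2 (Nat.cast_nonneg _)
    calc (Fintype.card H : ℝ) * ((m : ℝ) * Real.sqrt (s : ℝ)) ≤ _ := h9
      _ = _ := by ring
  exact (V3_re e H t).trans (le_of_mul_le_mul_right h8 hφ')

theorem V3_ord (e t j : ℕ) (he : 0 < e) :
    e / Nat.gcd e (t * j) * Nat.gcd (e / Nat.gcd e t) j = e / Nat.gcd e t := by
  set g := Nat.gcd e t with hg
  have hg0 : 0 < g := Nat.gcd_pos_of_pos_left t he
  obtain ⟨r, hr⟩ := Nat.gcd_dvd_left e t
  obtain ⟨t', ht'⟩ := Nat.gcd_dvd_right e t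
  rw [← hg] at hr ht'
  have hcop : Nat.Coprime r t' := by
    have h1 := Nat.coprime_div_gcd_div_gcd (m := e) (n := t) hg0
    rw [← hg] at h1
    rw [show e / g = r from Nat.div_eq_of_eq_mul_right hg0 hr,
      show t / g = t' from Nat.div_eq_of_eq_mul_right hg0 ht'] at h1
    exact h1
  have h2 : e / g = r := Nat.div_eq_of_eq_mul_right hg0 hr
  have h3 : Nat.gcd e (t * j) = g * Nat.gcd r j := by
    have h5 : t * j = g * (t' * j) := by
      calc t * j = (g * t') * j := by rw [← ht']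
        _ = _ := by ring
    have h6 : Nat.gcd e (t * j) = Nat.gcd (g * r) (g * (t' * j)) := by rw [← hr, h5]
    rw [h6, Nat.gcd_mul_left, Nat.Coprime.gcd_mul_left_cancel_right j hcop.symm]
  rw [h2, h3]
  have hr0 : 0 < r := Nat.pos_of_ne_zero (by rintro rfl; rw [mul_zero] at hr; omega)
  obtain ⟨k, hk⟩ := Nat.gcd_dvd_left r j
  have hd0 : 0 < Nat.gcd r j := Nat.gcd_pos_of_pos_left j hr0
  have h4 : e / (g * Nat.gcd r j) = k := by
    apply Nat.div_eq_of_eq_mul_right (Nat.mul_pos hg0 hd0)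
    calc e = g * r := hr
      _ = g * (Nat.gcd r j * k) := by rw [← hk]
      _ = _ := by ring
  rw [h4, mul_comm, ← hk]

/-- Either the order stays large for all `i`, or a prime `p > R` is to be avoided. -/
theorem V3_cases (R r : ℕ) (hr : 0 < r) (h : ¬ r ∣ R.factorial) :
    ∃ p : ℕ, p.Prime ∧ ((∀ j s : ℕ, j % R.factorial = 1 % R.factorial → s * Nat.gcd r j = r → R < s) ∨
      (R < p ∧ ∀ j s : ℕ, ¬ p ∣ j → s * Nat.gcd r j = r → R < s)) := by
  by_cases hp : ∃ p : ℕ, p.Prime ∧ p ∣ r ∧ R < p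
  · obtain ⟨p, hpp, hpr, hRp⟩ := hp
    refine ⟨p, hpp, Or.inr ⟨hRp, fun j s hj hs => ?_⟩⟩
    have h1 : p ∣ s * Nat.gcd r j := by rw [hs]; exact hpr
    have h2 : p ∣ s := by
      rcases hpp.dvd_mul.1 h1 with h3 | h3
      · exact h3
      · exact absurd (h3.trans (Nat.gcd_dvd_right r j)) hj
    have hs0 : 0 < s := Nat.pos_of_ne_zero (by rintro rfl; rw [zero_mul] at hs; omega)
    exact lt_of_lt_of_le hRp (Nat.le_of_dvd hs0 h2)
  · push Not at hp
    have h1 : ∃ p k : ℕ, p.Prime ∧ p ^ k ∣ r ∧ ¬ p ^ k ∣ R.factorial := by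
      by_contra hcon
      push Not at hcon
      exact h ((Nat.dvd_iff_prime_pow_dvd_dvd _ _).2 fun p k hpp hpk => hcon p k hpp hpk)
    obtain ⟨p, k, hpp, hpk, hnot⟩ := h1
    have hk : k ≠ 0 := by
      rintro rfl
      exact hnot (by rw [pow_zero]; exact one_dvd _)
    have hpr : p ∣ r := (dvd_pow_self p hk).trans hpk
    have hpR : p ≤ R := hp p hpp hpr
    have hbig : R < p ^ k := by
      by_contra hcon
      push Not at hcon
      exact hnot (Nat.dvd_factorial (pow_pos hpp.pos k) hcon)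
    refine ⟨p, hpp, Or.inl fun j s hj hs => ?_⟩
    have hpL : p ∣ R.factorial := Nat.dvd_factorial hpp.pos hpR
    have hpj : ¬ p ∣ j := by
      intro hd
      have h2 : p ∣ 1 % R.factorial := by
        rw [← hj]
        exact (Nat.dvd_mod_iff hpL).2 hd
      have h3 : p ∣ 1 := (Nat.dvd_mod_iff hpL).1 h2
      exact hpp.one_lt.ne' (Nat.dvd_one.1 h3)
    have hcop : Nat.Coprime (p ^ k) (Nat.gcd r j) := by
      apply Nat.Coprime.pow_left
      rw [hpp.coprime_iff_not_dvd]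
      exact fun h4 => hpj (h4.trans (Nat.gcd_dvd_right r j))
    have h5 : p ^ k ∣ s := by
      have h6 : p ^ k ∣ s * Nat.gcd r j := by rw [hs]; exact hpk
      exact hcop.dvd_of_dvd_mul_right h6
    have hs0 : 0 < s := Nat.pos_of_ne_zero (by rintro rfl; rw [zero_mul] at hs; omega)
    exact lt_of_lt_of_le hbig (Nat.le_of_dvd hs0 h5)

/-- Counting. -/
theorem V3_count (R J p L : ℕ) (hR : 0 < R) (hp : p.Prime) (hpR : R < p) (hL : ¬ p ∣ L) :
    (((Finset.range J).filter (fun i => p ∣ 1 + (i + 1) * L)).card : ℝ) ≤ (J : ℝ) / R + 1 := by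
  have h1 : ((Finset.range J).filter (fun i => p ∣ 1 + (i + 1) * L)).card ≤
      (Finset.range (J / p + 1)).card := by
    apply Finset.card_le_card_of_injOn (fun i => i / p)
    · intro i hi
      rw [Finset.mem_coe, Finset.mem_filter, Finset.mem_range] at hi
      rw [Finset.mem_coe, Finset.mem_range]
      exact Nat.lt_succ_of_le (Nat.div_le_div_right hi.1.le)
    · intro i hi i' hi' heq
      rw [Finset.mem_coe, Finset.mem_filter, Finset.mem_range] at hi hi'
      have h2 : (i : ℤ) ≡ i' [ZMOD p] := by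
        have ha : (p : ℤ) ∣ (1 + (i + 1) * L : ℤ) := by exact_mod_cast hi.2
        have hb : (p : ℤ) ∣ (1 + (i' + 1) * L : ℤ) := by exact_mod_cast hi'.2
        have hc := dvd_sub hb ha
        have hd : ((1 + (i' + 1) * L : ℤ) - (1 + (i + 1) * L)) = ((i' : ℤ) - i) * L := by ring
        rw [hd] at hc
        have hpz : Prime (p : ℤ) := Nat.prime_iff_prime_int.1 hp
        rcases hpz.dvd_or_dvd hc with h3 | h3
        · exact (Int.modEq_iff_dvd).2 h3
        · exact absurd (by exact_mod_cast h3) hL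
      have h3 : i % p = i' % p := by
        have h4 : i ≡ i' [MOD p] := (Int.natCast_modEq_iff).1 h2
        exact h4
      have heq' : i / p = i' / p := heq
      calc i = p * (i / p) + i % p := (Nat.div_add_mod i p).symm
        _ = p * (i' / p) + i' % p := by rw [heq', h3]
        _ = i' := Nat.div_add_mod i' p
  rw [Finset.card_range] at h1
  have h2 : (((Finset.range J).filter (fun i => p ∣ 1 + (i + 1) * L)).card : ℝ) ≤ ((J / p : ℕ) : ℝ) + 1 := by
    exact_mod_cast h1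
  refine h2.trans ?_
  have h3 : ((J / p : ℕ) : ℝ) ≤ (J : ℝ) / p := Nat.cast_div_le
  have h4 : (J : ℝ) / p ≤ (J : ℝ) / R := by
    apply div_le_div_of_nonneg_left (Nat.cast_nonneg _)
    · exact_mod_cast hR
    · exact_mod_cast hpR.le
  linarith

theorem V3_main (m : ℕ) (ε : ℝ) (hε : 0 < ε) (R J : ℕ) (hR0 : 0 < R) (hJ0 : 0 < J)
    (hR : 32 * (m : ℝ) ^ 8 ≤ ε ^ 8 * R) (e : ℕ) [NeZero e] (H : Subgroup (ZMod e)ˣ) [Fintype H]
    (hm : Nat.totient e ≤ m * Fintype.card H) (t : ℕ) (ht : ¬ e / Nat.gcd e t ∣ R.factorial) :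
    0 ≤ Fintype.card H * (2 * ε + 1 / R + 1 / J) + V3_a e H t -
      (1 / (J : ℝ)) * ∑ i ∈ Finset.range J, V3_a e H (t * (1 + (i + 1) * R.factorial)) := by
  have he : 0 < e := Nat.pos_of_ne_zero (NeZero.ne e)
  set r := e / Nat.gcd e t with hr
  have hr0 : 0 < r := Nat.div_pos (Nat.gcd_le_left t he) (Nat.gcd_pos_of_pos_left t he)
  have hrR : R < r := by
    by_contra hcon
    push Not at hcon
    exact ht (Nat.dvd_factorial hr0 hcon)
  have h1 := V3_small m ε hε R hR e H hm t hrR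
  set h : ℝ := (Fintype.card H : ℝ) with hh
  have hh0 : 0 ≤ h := Nat.cast_nonneg _
  have hJ0' : (0 : ℝ) < J := by exact_mod_cast hJ0
  have hR0' : (0 : ℝ) < R := by exact_mod_cast hR0
  have key : ∑ i ∈ Finset.range J, V3_a e H (t * (1 + (i + 1) * R.factorial)) ≤
      J * (ε * h) + ((J : ℝ) / R + 1) * h := by
    obtain ⟨p, hpp, hc⟩ := V3_cases R r hr0 ht
    rcases hc with hc | ⟨hpR, hc⟩
    · have h2 : ∀ i ∈ Finset.range J, V3_a e H (t * (1 + (i + 1) * R.factorial)) ≤ ε * h := by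
        intro i _
        refine (le_abs_self _).trans (V3_small m ε hε R hR e H hm _ ?_)
        refine hc (1 + (i + 1) * R.factorial) _ ?_ (V3_ord e t _ he)
        exact Nat.add_mul_mod_self_right 1 (i + 1) R.factorial
      have h3 := Finset.sum_le_sum h2
      rw [Finset.sum_const, Finset.card_range, nsmul_eq_mul] at h3
      have h4 : 0 ≤ ((J : ℝ) / R + 1) * h := by positivity
      linarith
    · have hpL : ¬ p ∣ R.factorial := by
        rw [hpp.dvd_factorial]
        omega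
      have h2 : ∀ i ∈ Finset.range J, V3_a e H (t * (1 + (i + 1) * R.factorial)) ≤
          ε * h + if p ∣ 1 + (i + 1) * R.factorial then h else 0 := by
        intro i _
        split_ifs with hd
        · have h3 := (le_abs_self _).trans (V3_abs_le_card e H (t * (1 + (i + 1) * R.factorial)))
          have h4 : 0 ≤ ε * h := by positivity
          linarith
        · rw [add_zero]
          refine (le_abs_self _).trans (V3_small m ε hε R hR e H hm _ ?_)
          exact hc (1 + (i + 1) * R.factorial) _ hd (V3_ord e t _ he)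
      have h3 := Finset.sum_le_sum h2
      rw [Finset.sum_add_distrib, Finset.sum_const, Finset.card_range, nsmul_eq_mul,
        ← Finset.sum_filter, Finset.sum_const, nsmul_eq_mul] at h3
      have h4 := V3_count R J p R.factorial hR0 hpp hpR hpL
      have h5 := mul_le_mul_of_nonneg_right h4 hh0
      linarith
  have h6 : (1 / (J : ℝ)) * ∑ i ∈ Finset.range J, V3_a e H (t * (1 + (i + 1) * R.factorial)) ≤
      ε * h + (1 / R + 1 / J) * h := by
    have h7 := mul_le_mul_of_nonneg_left key (by positivity : (0 : ℝ) ≤ 1 / (J : ℝ))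
    refine h7.trans (le_of_eq ?_)
    field_simp
  have h8 := neg_abs_le (V3_a e H t)
  nlinarith

theorem exists_test (m : ℕ) (B : ℝ) (hB : 0 < B) : ∃ (α : ℝ) (J L : ℕ), 0 < J ∧ 0 < L ∧
    α * B < 1 ∧ 0 ≤ α ∧ ∀ (e : ℕ) [NeZero e] (H : Subgroup (ZMod e)ˣ) [Fintype H],
      Nat.totient e ≤ m * Fintype.card H → ∀ t : ℕ,
      0 ≤ ∑ c : H, (α + Real.cos (2 * Real.pi * (t * ((((c : (ZMod e)ˣ)) : ZMod e).val : ℕ)) / e) -
        (1 / (J : ℝ)) * ∑ i ∈ Finset.range J,
          Real.cos (2 * Real.pi * (t * ((((c : (ZMod e)ˣ)) : ZMod e).val : ℕ) *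
            (1 + (i + 1) * L)) / e)) := by
  set ε : ℝ := 1 / (8 * B) with hε
  have hε0 : 0 < ε := by positivity
  obtain ⟨R1, hR1⟩ := exists_nat_ge (32 * (m : ℝ) ^ 8 / ε ^ 8)
  obtain ⟨R2, hR2⟩ := exists_nat_ge (8 * B)
  set R := max (max R1 R2) 1 with hR
  have hR0 : 0 < R := lt_of_lt_of_le Nat.one_pos (le_max_right _ _)
  have hRa : 32 * (m : ℝ) ^ 8 ≤ ε ^ 8 * R := by
    have h1 : (R1 : ℝ) ≤ R := by exact_mod_cast (le_max_left _ _).trans (le_max_left _ _)
    rw [div_le_iff₀ (by positivity)] at hR1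
    have h2 : (R1 : ℝ) * ε ^ 8 ≤ R * ε ^ 8 := mul_le_mul_of_nonneg_right h1 (by positivity)
    linarith
  have hRb : 8 * B ≤ R := hR2.trans (by exact_mod_cast (le_max_right _ _).trans (le_max_left _ _))
  have hR0' : (0 : ℝ) < R := by exact_mod_cast hR0
  refine ⟨2 * ε + 1 / R + 1 / R, R, R.factorial, hR0, Nat.factorial_pos _, ?_, by positivity, ?_⟩
  · have h1 : 1 / (R : ℝ) ≤ ε := by
      rw [hε]
      exact one_div_le_one_div_of_le (by positivity) hRb
    have h2 : ε * B = 1 / 8 := by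
      rw [hε]
      field_simp
    have h3 : (2 * ε + 1 / R + 1 / R) * B ≤ (4 * ε) * B :=
      mul_le_mul_of_nonneg_right (by linarith) hB.le
    linarith
  · intro e _ H _ hm t
    have he : 0 < e := Nat.pos_of_ne_zero (NeZero.ne e)
    have he' : (e : ℝ) ≠ 0 := by exact_mod_cast he.ne'
    have hrw : ∀ (c : H) (i : ℕ), Real.cos (2 * Real.pi * (t * ((((c : (ZMod e)ˣ)) : ZMod e).val : ℕ) *
        (1 + (i + 1) * (R.factorial : ℕ))) / e) =
        Real.cos (2 * Real.pi * (((t * (1 + (i + 1) * R.factorial) : ℕ) : ℝ) *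
          ((((c : (ZMod e)ˣ)) : ZMod e).val : ℕ)) / e) := by
      intro c i
      congr 2
      push_cast
      ring
    by_cases ht : e / Nat.gcd e t ∣ R.factorial
    · -- the cosines agree
      have hper : ∀ (c : H) (i : ℕ), Real.cos (2 * Real.pi * (t * ((((c : (ZMod e)ˣ)) : ZMod e).val : ℕ) *
          (1 + (i + 1) * (R.factorial : ℕ))) / e) =
          Real.cos (2 * Real.pi * (t * ((((c : (ZMod e)ˣ)) : ZMod e).val : ℕ)) / e) := by
        intro c i
        have hd : e ∣ t * R.factorial := by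
          obtain ⟨k, hk⟩ := ht
          obtain ⟨t', ht'⟩ := Nat.gcd_dvd_right e t
          have h1 : e / Nat.gcd e t * Nat.gcd e t = e := Nat.div_mul_cancel (Nat.gcd_dvd_left e t)
          refine ⟨t' * k, ?_⟩
          rw [hk]
          calc t * (e / Nat.gcd e t * k) = (Nat.gcd e t * t') * (e / Nat.gcd e t * k) := by rw [← ht']
            _ = (e / Nat.gcd e t * Nat.gcd e t) * (t' * k) := by ring
            _ = e * (t' * k) := by rw [h1]
        obtain ⟨k, hk⟩ := hd
        have hk' : (t : ℝ) * (R.factorial : ℕ) = e * k := by exact_mod_cast hk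
        have h2 : 2 * Real.pi * (t * ((((c : (ZMod e)ˣ)) : ZMod e).val : ℕ) *
            (1 + (i + 1) * (R.factorial : ℕ))) / e =
            2 * Real.pi * (t * ((((c : (ZMod e)ˣ)) : ZMod e).val : ℕ)) / e +
              ((k * ((((c : (ZMod e)ˣ)) : ZMod e).val) * (i + 1) : ℕ) : ℝ) * (2 * Real.pi) := by
          push_cast
          field_simp
          linear_combination ((((c : (ZMod e)ˣ)) : ZMod e).val : ℝ) * (i + 1) * hk'
        rw [h2, Real.cos_add_nat_mul_two_pi]
      refine Finset.sum_nonneg fun c _ => ?_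
      rw [Finset.sum_congr rfl fun i _ => hper c i, Finset.sum_const, Finset.card_range, nsmul_eq_mul]
      have h3 : (1 / (R : ℝ)) * (R * Real.cos (2 * Real.pi *
          (t * ((((c : (ZMod e)ˣ)) : ZMod e).val : ℕ)) / e)) =
          Real.cos (2 * Real.pi * (t * ((((c : (ZMod e)ˣ)) : ZMod e).val : ℕ)) / e) := by
        field_simp
      rw [h3]
      have : 0 ≤ 2 * ε + 1 / R + 1 / R := by positivity
      linarith
    · have h1 := V3_main m ε hε0 R R hR0 hR0 hRa e H hm t ht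
      refine h1.trans (le_of_eq ?_)
      rw [Finset.sum_sub_distrib, Finset.sum_add_distrib, Finset.sum_const, ← Finset.mul_sum,
        Finset.sum_comm]
      simp only [hrw, V3_a, Finset.card_univ, nsmul_eq_mul]

end Pool.Agent.ST5
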